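import Pool.Agent.U226.RG.Share
import Pool.Agent.Y133.Half.PredSys

/-!
# The exact share of the algebraic classes among the classes with a property
-/

set_option linter.unusedSectionVars false
set_option autoImplicit false

open CategoryTheory AlgebraicGeometry Filter Topology

universe u v

namespace Pool.Agent.U226.RG

open Module
open Pool.Agent.H914 Pool.Agent.H914.VarClass Pool.Agent.H914.VarClass.Obj
  Pool.Agent.H914.WeilCohomology Pool.Agent.H281R3.HT Pool.Agent.Y133.Half.Sys
  Pool.Agent.W458.MF Pool.Agent.W536.RR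
open Pool.Agent.Y133.Half (Sys ClassPred pw algSys pwAdd prodCongr)

variable {k : Type u} [Field k] {𝒱 : VarClass k} {ops : CycleOps 𝒱}
  {W : WeilCohomology.{u, v} ops} {X Y Z P Q N : 𝒱.Obj}

/-- The subspace of `H(Z)` spanned by the images of the algebraic correspondences from the powers
of `X` to `Z`. -/
noncomputable def algImage (W : WeilCohomology.{u, v} ops) (X Z : 𝒱.Obj) :
    Submodule W.K (W.H Z) :=
  Submodule.span W.K {y | ∃ n j, ∃ z : ((pw X n).prod Z).Cycles, Obj.IsCyc _ j z ∧
    ∃ a : W.H (pw X n), y = W.corr (W.cl _ z) a}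

/-- The subspace of `H(Z)` spanned by the images of the correspondences from the powers of `X` to
`Z` given by classes with the property `R`. -/
noncomputable def predImage (R : ClassPred W) (X Z : 𝒱.Obj) : Submodule W.K (W.H Z) :=
  Submodule.span W.K {y | ∃ n j, ∃ c, R.P ((pw X n).prod Z) j c ∧
    ∃ a : W.H (pw X n), y = W.corr c a}

lemma img_alg : img (algSys W) X Z = algImage W X Z := by
  rw [img_eq_span]
  apply le_antisymm
  · refine Submodule.span_le.2 ?_
    rintro _ ⟨n, c, hc, a, rfl⟩
    refine algSpan_induction (p := fun c => W.corr c a ∈ algImage W X Z) ?_ ?_ ?_ ?_ hc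
    · rw [corr_zero, LinearMap.zero_apply]; exact Submodule.zero_mem _
    · intro c d hc hd
      rw [corr_add, LinearMap.add_apply]
      exact Submodule.add_mem _ hc hd
    · intro t c hc
      rw [corr_smul, LinearMap.smul_apply]
      exact Submodule.smul_mem _ _ hc
    · intro j z hz
      exact Submodule.subset_span ⟨n, j, z, hz, a, rfl⟩
  · refine Submodule.span_mono ?_
    rintro _ ⟨n, j, z, hz, a, rfl⟩
    exact ⟨n, _, Submodule.subset_span (Set.mem_iUnion.2 ⟨j, z, hz, rfl⟩), a, rfl⟩

lemma img_pred (R : ClassPred W) : img R.sys X Z = predImage R X Z := by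
  rw [img_eq_span]
  apply le_antisymm
  · refine Submodule.span_le.2 ?_
    rintro _ ⟨n, c, hc, a, rfl⟩
    refine ClassPred.sp_ind (q := fun c => W.corr c a ∈ predImage R X Z) ?_ ?_ ?_ hc
    · intro j x hx
      exact Submodule.subset_span ⟨n, j, x, hx, a, rfl⟩
    · rw [corr_zero, LinearMap.zero_apply]; exact Submodule.zero_mem _
    · intro c d hc hd
      rw [corr_add, LinearMap.add_apply]
      exact Submodule.add_mem _ hc hd
  · refine Submodule.span_mono ?_
    rintro _ ⟨n, j, c, hc, a, rfl⟩
    exact ⟨n, c, ClassPred.sp_of hc, a, rfl⟩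

/-- **The exact share of the algebraic classes.** -/
theorem pred_share [Nontrivial (W.H X)] [Nontrivial (W.H Z)] (R : ClassPred W)
    (hnd : ∀ Z x, x ∈ R.sys.C Z → (∀ y ∈ R.sys.C Z, W.tr Z (x * y) = 0) → x = 0)
    (heq : ∀ n, algSpan W (pw X n) = R.sys.C (pw X n)) :
    Tendsto (fun n => (finrank W.K (algSpan W ((pw X n).prod Z)) : ℝ) /
      finrank W.K (R.sys.C ((pw X n).prod Z))) atTop
      (𝓝 ((finrank W.K (algImage W X Z) : ℝ) / finrank W.K (predImage R X Z))) ∧
    algImage W X Z ≤ predImage R X Z ∧ 0 < finrank W.K (predImage R X Z) ∧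
    (algImage W X Z = predImage R X Z ↔
      ∀ n, algSpan W ((pw X n).prod Z) = R.sys.C ((pw X n).prod Z)) := by
  have hT : ∀ V, Nondeg R.sys V := fun V x hx h => hnd V x hx h
  have hST : ∀ V, algSpan W V ≤ R.sys.C V := fun V => ClassPred.alg_le
  obtain ⟨h1, h2⟩ := exact_share (Z := Z) hT heq hST
  have h3 : img (algSys W) X Z ≤ img R.sys X Z := img_mono hST
  have h4 := img_pos (Z := Z) hT heq hST
  rw [img_alg, img_pred] at h1 h2 h3
  rw [img_pred] at h4
  exact ⟨h1, h3, h4, h2⟩

end Pool.Agent.U226.RG
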