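import Pool.Agent.U226.RG.Gen
import Pool.Agent.Y133.Half.DLaw

/-!
# The law for a fixed factor for conjecture D
-/

set_option linter.unusedSectionVars false
set_option autoImplicit false

open CategoryTheory AlgebraicGeometry Filter Topology

universe u v

namespace Pool.Agent.U226.RG

open Module
open Pool.Agent.H914 Pool.Agent.H914.VarClass Pool.Agent.H914.VarClass.Obj
  Pool.Agent.H914.WeilCohomology Pool.Agent.H281R3.HT
open Pool.Agent.Y133.Half (pw cycRank algDim algDim_eq mem_algNum numDim_eq_cycRank algSys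
  numTrivial dimOf numTrivial_eq pwAdd finrank_pw prodComm)

variable {k : Type u} [Field k] {𝒱 : VarClass k} {ops : CycleOps 𝒱}

/-- `D` holds if and only if there are no numerically trivial combinations of algebraic classes. -/
lemma homEqNum_of_num {W : WeilCohomology.{u, v} ops} {V : 𝒱.Obj} (h : (algSys W).Num V = ⊥) :
    HomEqNum W V := by
  apply Pool.Agent.Y129.homEqNum_of_algSpan
  intro c hc hc'
  have h1 : c ∈ (algSys W).Num V := mem_algNum.2 ⟨hc, hc'⟩
  rw [h, Submodule.mem_bot] at h1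
  exact h1

/-- **The law for conjecture D on `X^n × Z`.** -/
theorem d_fixed (W : WeilCohomology.{u, v} ops) (X Z : 𝒱.Obj) :
    ((∀ n, HomEqNum W ((pw X n).prod Z)) ∨
      ∀ ε : ℝ, 0 < ε → ∃ n₀ : ℕ, ∀ n ≥ n₀, (cycRank ops ((pw X n).prod Z) : ℝ) ≤
        (1 - 1 / ((finrank W.K (W.H Z) : ℝ) + 1) + ε) * algDim W ((pw X n).prod Z)) ∧
    ((∃ q, ¬ HomEqNum W (pw X q)) →
      Tendsto (fun n => (cycRank ops ((pw X n).prod Z) : ℝ) / algDim W ((pw X n).prod Z))
        atTop (𝓝 0)) := by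
  constructor
  · rcases fixed_law (S := algSys W) (T := algSys W) (fun _ => le_rfl) X Z with h | h
    · exact Or.inl fun n => homEqNum_of_num (h n).2
    · right
      intro ε hε
      obtain ⟨n₀, hn₀⟩ := h ε hε
      refine ⟨n₀, fun n hn => ?_⟩
      have h1 := hn₀ n hn
      rw [numDim_eq_cycRank] at h1
      rw [algDim_eq]
      exact h1
  · rintro ⟨q, hq⟩
    have hq' : (algSys W).Num (pw X q) ≠ ⊥ := fun h => hq (homEqNum_of_num h)
    rw [Metric.tendsto_atTop]
    intro ε hε
    obtain ⟨N, hN⟩ := exists_nat_gt (1 / ε)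
    obtain ⟨n₀, hn₀⟩ := small_prod (S := algSys W) (T := algSys W) (fun _ => le_rfl) hq' Z (N + 1)
    refine ⟨n₀, fun n hn => ?_⟩
    have h1 := hn₀ n hn
    rw [numDim_eq_cycRank] at h1
    change (N + 1) * cycRank ops ((pw X n).prod Z) ≤
      finrank W.K (algSpan W ((pw X n).prod Z)) at h1
    rw [← algDim_eq] at h1
    have h2 : ((N : ℝ) + 1) * cycRank ops ((pw X n).prod Z) ≤ algDim W ((pw X n).prod Z) := by
      exact_mod_cast h1
    have h3 : (0 : ℝ) ≤ cycRank ops ((pw X n).prod Z) := Nat.cast_nonneg _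
    rw [Real.dist_eq, sub_zero, abs_of_nonneg (div_nonneg h3 (Nat.cast_nonneg _))]
    rcases Nat.eq_zero_or_pos (algDim W ((pw X n).prod Z)) with h4 | h4
    · rw [h4, Nat.cast_zero, div_zero]; exact hε
    have h5 : (0 : ℝ) < algDim W ((pw X n).prod Z) := by exact_mod_cast h4
    rw [div_lt_iff₀ h5]
    have h6 : 1 < ε * N := by
      have := mul_lt_mul_of_pos_left hN hε
      rwa [mul_one_div_cancel hε.ne'] at this
    calc (cycRank ops ((pw X n).prod Z) : ℝ) ≤ ε * N * cycRank ops ((pw X n).prod Z) := by nlinarith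
      _ < ε * algDim W ((pw X n).prod Z) := by
          rw [mul_assoc]
          apply mul_lt_mul_of_pos_left _ hε
          rcases h3.lt_or_eq with h7 | h7
          · nlinarith
          · rw [← h7]; simpa using h5

lemma dim_numTrivial (W : WeilCohomology.{u, v} ops) (V : 𝒱.Obj) :
    dimOf W (numTrivial W V) = finrank W.K ((algSys W).Num V) := by
  rw [dimOf, Set.finrank, numTrivial_eq, Submodule.span_eq]

/-- **Growth of the space of numerically trivial classes.** -/
theorem d_growth (W : WeilCohomology.{u, v} ops) (X Z : 𝒱.Obj) :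
    (∀ n, HomEqNum W ((pw X n).prod Z)) ∨
      ∃ C n₀ : ℕ, ∀ n ≥ n₀, finrank W.K (W.H X) ^ (n + 1) ≤
        C * (n + 1) ^ C * dimOf W (numTrivial W ((pw X n).prod Z)) := by
  by_cases h1Z : (1 : W.H Z) = 0
  · -- the cohomology of `Z` is zero
    left
    intro n j _ z _ _
    have h2 : (1 : W.H ((pw X n).prod Z)) = 0 := by
      rw [← map_one (W.map (snd (pw X n) Z)), h1Z, map_zero]
    rw [← one_mul (W.cl _ z), h2, zero_mul]
  rcases fixed_law (S := algSys W) (T := algSys W) (fun _ => le_rfl) X Z with h | h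
  · exact Or.inl fun n => homEqNum_of_num (h n).2
  right
  set b := finrank W.K (W.H X) with hb
  set bZ := finrank W.K (W.H Z) with hbZ
  have hp : (0 : ℝ) < (bZ : ℝ) + 1 := by positivity
  obtain ⟨n₀, hn₀⟩ := h (1 / (2 * ((bZ : ℝ) + 1))) (by positivity)
  rcases Nat.eq_zero_or_pos b with hb0 | hb0
  · refine ⟨0, 0, fun n _ => ?_⟩
    rw [hb0, zero_pow (Nat.succ_ne_zero _)]
    exact Nat.zero_le _
  have h1X : ∀ n, (1 : W.H (pw X n)) ≠ 0 := by
    intro n
    have : Nontrivial (W.H (pw X n)) := by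
      apply Module.nontrivial_of_finrank_pos (R := W.K)
      rw [finrank_pw]
      exact Nat.pow_pos hb0
    exact one_ne_zero
  refine ⟨2 * (bZ + 1) * b ^ 2 + b ^ 2, n₀ + 4, fun n hn => ?_⟩
  obtain ⟨m₀, l, hm₀, hl⟩ : ∃ m₀ l, m₀ ≤ 1 ∧ n = m₀ + (l + l + 1) + 1 :=
    ⟨n % 2, (n - n % 2 - 2) / 2, by omega, by omega⟩
  set V := (pw X n).prod Z with hV
  have h1 := hn₀ n (by omega)
  have h2 := (algSys W).a_add_num V
  have h3 : finrank W.K ((algSys W).C V) ≤ 2 * (bZ + 1) * finrank W.K ((algSys W).Num V) := by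
    have h4 : ((algSys W).a V : ℝ) + finrank W.K ((algSys W).Num V) =
        finrank W.K ((algSys W).C V) := by exact_mod_cast h2
    have h5 : (finrank W.K ((algSys W).C V) : ℝ) ≤
        2 * ((bZ : ℝ) + 1) * finrank W.K ((algSys W).Num V) := by
      have h6 : (1 - 1 / ((bZ : ℝ) + 1) + 1 / (2 * ((bZ : ℝ) + 1))) =
          1 - 1 / (2 * ((bZ : ℝ) + 1)) := by field_simp; ring
      rw [h6] at h1
      have h7 : (1 / (2 * ((bZ : ℝ) + 1))) * finrank W.K ((algSys W).C V) ≤
          finrank W.K ((algSys W).Num V) := by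
        have : ((algSys W).a V : ℝ) ≤ (1 - 1 / (2 * ((bZ : ℝ) + 1))) *
          finrank W.K ((algSys W).C V) := h1
        linarith
      have h8 := mul_le_mul_of_nonneg_left h7 (show (0 : ℝ) ≤ 2 * ((bZ : ℝ) + 1) by positivity)
      rwa [← mul_assoc, mul_one_div_cancel (by positivity), one_mul] at h8
    exact_mod_cast h5
  have h4 : finrank W.K ((algSys W).C (pw X (l + l + 1))) ≤ finrank W.K ((algSys W).C V) := by
    rw [hV, ← (algSys W).finrank_C_iso (isoN X Z hl), ← (algSys W).finrank_C_iso (pwAdd X l l)]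
    have h6 := finrank_right (algSys W) (pw X m₀) (V := (pw X l).prod (pw X l)) (h1X _)
    have h7 := finrank_right (algSys W) Z (V := (pw X m₀).prod ((pw X l).prod (pw X l))) h1Z
    rw [(algSys W).finrank_C_iso (prodComm Z ((pw X m₀).prod ((pw X l).prod (pw X l))))] at h7
    exact h6.trans h7
  have h5 := (algSys W).growth X l
  rw [(algSys W).finrank_C_iso (pwAdd X l l)] at h5
  rw [dim_numTrivial]
  set D := 2 * (bZ + 1) * b ^ 2 + b ^ 2 with hD
  calc b ^ (n + 1) ≤ b ^ (2 + 2 * (l + 1)) := Nat.pow_le_pow_right hb0 (by omega)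
    _ = b ^ 2 * b ^ (2 * (l + 1)) := by rw [pow_add]
    _ ≤ b ^ 2 * (finrank W.K ((algSys W).C (pw X (l + l + 1))) * (l + 2) ^ (b ^ 2)) :=
        Nat.mul_le_mul_left _ h5
    _ ≤ b ^ 2 * ((2 * (bZ + 1) * finrank W.K ((algSys W).Num V)) * (n + 1) ^ D) := by
        refine Nat.mul_le_mul_left _ (Nat.mul_le_mul (h4.trans h3) ?_)
        exact (Nat.pow_le_pow_left (by omega) _).trans
          (Nat.pow_le_pow_right (Nat.succ_pos n) (Nat.le_add_left _ _))
    _ = (2 * (bZ + 1) * b ^ 2) * (n + 1) ^ D * finrank W.K ((algSys W).Num V) := by ring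
    _ ≤ D * (n + 1) ^ D * finrank W.K ((algSys W).Num V) :=
        Nat.mul_le_mul_right _ (Nat.mul_le_mul_right _ (Nat.le_add_right _ _))

end Pool.Agent.U226.RG
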