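import Pool.Agent.U226.RG.Rat

/-!
# The rational index law for the products of the powers of a variety with a fixed variety
-/

set_option linter.unusedSectionVars false
set_option autoImplicit false

open CategoryTheory AlgebraicGeometry Filter Topology

open scoped ENNReal

universe u v

namespace Pool.Agent.U226.RG

open Module
open Pool.Agent.H914 Pool.Agent.H914.VarClass Pool.Agent.H914.VarClass.Obj
  Pool.Agent.H914.WeilCohomology Pool.Agent.H281R3.HT Pool.Agent.Y133.Half.Sys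
open Pool.Agent.Y133.Half (Sys pw cycRank algDim algDim_eq mem_algNum numDim_eq_cycRank algSys
  numTrivial dimOf numTrivial_eq pwAdd finrank_pw prodComm prodCongr xp_eq_zero_left xp
  homEqNum_iff rk rk_comp_le tr_xp)

variable {k : Type u} [Field k] {𝒱 : VarClass k} {ops : CycleOps 𝒱}
  {W : WeilCohomology.{u, v} ops} {X Y Z : 𝒱.Obj}

lemma tendsto_ratio_top {t a : ℕ → ℕ} (ht : ∀ n, 0 < t n)
    (h : ∀ M : ℕ, ∃ n₀ : ℕ, ∀ n ≥ n₀, M * a n ≤ t n) :
    Tendsto (fun n => (t n : ℝ≥0∞) / a n) atTop (𝓝 ⊤) := by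
  rw [ENNReal.tendsto_nhds_top_iff_nat]
  intro N
  obtain ⟨n₀, hn₀⟩ := h (N + 1)
  filter_upwards [eventually_ge_atTop n₀] with n hn
  have h2 := hn₀ n hn
  rcases Nat.eq_zero_or_pos (a n) with h3 | h3
  · rw [h3, Nat.cast_zero, ENNReal.div_zero (by exact_mod_cast (ht n).ne')]
    exact ENNReal.natCast_lt_top N
  · have h4 : ((N + 1 : ℕ) : ℝ≥0∞) ≤ (t n : ℝ≥0∞) / a n := by
      rw [ENNReal.le_div_iff_mul_le (Or.inl (by exact_mod_cast h3.ne'))
        (Or.inl (ENNReal.natCast_ne_top _))]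
      exact_mod_cast h2
    exact lt_of_lt_of_le (by exact_mod_cast Nat.lt_succ_self N) h4

lemma ratio_eq_ofReal {t a : ℕ} (ha : 0 < a) :
    (t : ℝ≥0∞) / a = ENNReal.ofReal ((t : ℝ) / a) := by
  rw [ENNReal.ofReal_div_of_pos (by exact_mod_cast ha), ENNReal.ofReal_natCast,
    ENNReal.ofReal_natCast]

/-- The rank of the intersection form on `Z × Y` for a class of degree one on `Z`. -/
lemma a_ge (S : Sys W) {w : W.H Z} (hw : w ∈ S.C Z) (hw1 : W.tr Z w = 1) (P : 𝒱.Obj) :
    S.a P ≤ S.a (P.prod Z) := by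
  let f : S.C P →ₗ[W.K] S.C (P.prod Z) := S.mapS (fst P Z)
  let g : S.C P →ₗ[W.K] S.C (P.prod Z) :=
    (LinearMap.restrict (LinearMap.mulRight W.K (W.map (snd P Z) w))
      (fun c hc => S.mul hc (S.map _ hw))) ∘ₗ S.mapS (fst P Z)
  have h1 : (S.F (P.prod Z) 1).compl₁₂ f g = S.F P 1 := by
    apply LinearMap.ext
    intro c
    apply LinearMap.ext
    intro d
    rw [LinearMap.compl₁₂_apply, F_apply, F_apply]
    change W.tr (P.prod Z) (W.map (fst P Z) (c : W.H P) *
      (W.map (fst P Z) (d : W.H P) * W.map (snd P Z) w)) = W.tr P ((c : W.H P) * (d : W.H P))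
    rw [← mul_assoc, ← map_mul, W.tr_prod, hw1, mul_one]
  have h2 := rk_comp_le (S.F (P.prod Z) 1) f g
  rw [h1] at h2
  exact h2

lemma a_eq_zero_right {S : Sys W} (hZ : ∀ w ∈ S.C Z, W.tr Z w = 0) (P : 𝒱.Obj) :
    S.a (P.prod Z) = 0 := by
  have h1 : ∀ c ∈ S.C (P.prod Z), W.tr (P.prod Z) c = 0 := by
    intro c hc
    have h2 := W.tr_push (snd P Z) c 1
    rw [mul_one, map_one, mul_one] at h2
    rw [← h2]
    exact hZ _ (S.push _ hc)
  have h3 : S.F (P.prod Z) 1 = 0 := by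
    apply LinearMap.ext
    intro c
    apply LinearMap.ext
    intro d
    exact h1 _ (S.mul c.2 d.2)
  rw [a, h3, rk]
  simp

lemma a_up_even (S : Sys W) (X Z : 𝒱.Obj) (l : ℕ) :
    S.a ((pw X (l + l + 1)).prod Z) ≤ finrank W.K (W.H Z) * S.a (pw X (l + l + 1)) := by
  let χ : Z.prod ((pw X l).prod (pw X l)) ≅ (pw X (l + l + 1)).prod Z :=
    prodComm Z ((pw X l).prod (pw X l)) ≪≫ prodCongr (pwAdd X l l) (Iso.refl Z)
  rw [← S.a_iso χ, ← S.a_iso (pwAdd X l l)]
  exact S.a_le _ _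

lemma nontrivial_prod [Nontrivial (W.H X)] [Nontrivial (W.H Z)] : Nontrivial (W.H (X.prod Z)) := by
  apply Module.nontrivial_of_finrank_pos (R := W.K)
  rw [Pool.Agent.Y133.Half.finrank_prod]
  exact Nat.mul_pos Module.finrank_pos Module.finrank_pos

lemma nontrivial_pw [Nontrivial (W.H X)] (n : ℕ) : Nontrivial (W.H (pw X n)) := by
  apply Module.nontrivial_of_finrank_pos (R := W.K)
  rw [finrank_pw]
  exact Nat.pow_pos Module.finrank_pos

lemma finrank_C_pos (T : Sys W) [Nontrivial (W.H Z)] : 0 < finrank W.K (T.C Z) := by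
  rw [Module.finrank_pos_iff]
  exact ⟨⟨1, T.one Z⟩, 0, fun h => one_ne_zero (congrArg Subtype.val h)⟩

/-- **The rational index law.** Let `T` be a system of classes which contains the algebraic classes.
The quotient of the dimension of the space of classes of `T` on `X^n × Z` and of the rank of the
group of cycles modulo numerical equivalence converges to `N / d`, where `N` is an integer or
infinite and `d` is an integer with `1 ≤ d ≤ b(Z)` and `d ≤ N`; and `N = d` if and only if all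
classes of `T` on all varieties `X^n × Z` are algebraic and homological and numerical equivalence
agree on them. -/
theorem rational_index (T : Sys W) (hT : ∀ Z, algSpan W Z ≤ T.C Z) (X Z : 𝒱.Obj)
    [Nontrivial (W.H X)] [Nontrivial (W.H Z)] : ∃ (N : ℕ∞) (d : ℕ),
      1 ≤ d ∧ d ≤ finrank W.K (W.H Z) ∧ (d : ℕ∞) ≤ N ∧
      Tendsto (fun n => (finrank W.K (T.C ((pw X n).prod Z)) : ℝ≥0∞) /
        cycRank ops ((pw X n).prod Z)) atTop (𝓝 ((N : ℝ≥0∞) / d)) ∧
      (N = d ↔ ∀ n, T.C ((pw X n).prod Z) = algSpan W ((pw X n).prod Z) ∧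
        HomEqNum W ((pw X n).prod Z)) ∧
      (N ≠ ⊤ → (∀ n, HomEqNum W (pw X n)) ∧
        Tendsto (fun n => (cycRank ops ((pw X n).prod Z) : ℝ) / cycRank ops (pw X n)) atTop
          (𝓝 (d : ℝ))) := by
  have hbZ : 1 ≤ finrank W.K (W.H Z) := Module.finrank_pos
  have hntXZ : ∀ n, Nontrivial (W.H ((pw X n).prod Z)) := by
    intro n
    have := nontrivial_pw (W := W) (X := X) n
    exact nontrivial_prod
  have htpos : ∀ n, 0 < finrank W.K (T.C ((pw X n).prod Z)) := by
    intro n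
    have := hntXZ n
    exact finrank_C_pos T
  have ha : ∀ V, (algSys W).a V = cycRank ops V := fun V => numDim_eq_cycRank W V
  -- the case of the limit infinity
  have htop : (∀ M : ℕ, ∃ n₀ : ℕ, ∀ n ≥ n₀, M * cycRank ops ((pw X n).prod Z) ≤
      finrank W.K (T.C ((pw X n).prod Z))) → (¬ ∀ n, HomEqNum W ((pw X n).prod Z)) →
      ∃ (N : ℕ∞) (d : ℕ), 1 ≤ d ∧ d ≤ finrank W.K (W.H Z) ∧ (d : ℕ∞) ≤ N ∧
      Tendsto (fun n => (finrank W.K (T.C ((pw X n).prod Z)) : ℝ≥0∞) /
        cycRank ops ((pw X n).prod Z)) atTop (𝓝 ((N : ℝ≥0∞) / d)) ∧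
      (N = d ↔ ∀ n, T.C ((pw X n).prod Z) = algSpan W ((pw X n).prod Z) ∧
        HomEqNum W ((pw X n).prod Z)) ∧
      (N ≠ ⊤ → (∀ n, HomEqNum W (pw X n)) ∧
        Tendsto (fun n => (cycRank ops ((pw X n).prod Z) : ℝ) / cycRank ops (pw X n)) atTop
          (𝓝 (d : ℝ))) := by
    intro h h'
    refine ⟨⊤, 1, le_rfl, hbZ, le_top, ?_, ?_, fun h => absurd rfl h⟩
    · have h1 := tendsto_ratio_top htpos h
      simpa using h1
    · constructor
      · intro h1; simp at h1
      · intro h1; exact absurd (fun n => (h1 n).2) h'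
  have hzero : ∀ n, cycRank ops ((pw X n).prod Z) = 0 → ¬ HomEqNum W ((pw X n).prod Z) := by
    intro n h0 h1
    have := hntXZ n
    have h2 := (homEqNum_iff _).1 h1
    have h3 := (algSys W).a_add_num ((pw X n).prod Z)
    rw [h2, finrank_bot, ha, h0] at h3
    have h4 := finrank_C_pos (Z := (pw X n).prod Z) (algSys W)
    omega
  by_cases hX0 : ∀ l ∈ (algSys W).C X, W.tr X l = 0
  · have h0 : ∀ n, cycRank ops ((pw X n).prod Z) = 0 := fun n => by
      rw [← ha]; exact a_eq_zero_prod hX0 n Z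
    exact htop (fun M => ⟨0, fun n _ => by rw [h0, mul_zero]; exact Nat.zero_le _⟩)
      (fun h => hzero 0 (h0 0) (h 0))
  push Not at hX0
  obtain ⟨l', hl', hl'0⟩ := hX0
  obtain ⟨l, hl, hl1⟩ : ∃ l ∈ (algSys W).C X, W.tr X l = 1 :=
    ⟨(W.tr X l')⁻¹ • l', Submodule.smul_mem _ _ hl', by
      rw [map_smul, smul_eq_mul, inv_mul_cancel₀ hl'0]⟩
  by_cases hD : ∀ n, (algSys W).Num (pw X n) = ⊥
  swap
  · push Not at hD
    obtain ⟨q, hq⟩ := hD
    refine htop (fun M => ?_) ?_
    · obtain ⟨n₀, hn₀⟩ := small_prod (S := algSys W) (T := T) hT hq Z M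
      refine ⟨n₀, fun n hn => ?_⟩
      rw [← ha]
      exact hn₀ n hn
    · intro h
      obtain ⟨z, hz, hz0⟩ := Submodule.exists_mem_ne_zero_of_ne_bot hq
      have h1 := (homEqNum_iff _).1 (h q)
      have h2 : W.map (fst (pw X q) Z) z ∈ (algSys W).Num ((pw X q).prod Z) := Num.map _ hz
      rw [h1, Submodule.mem_bot] at h2
      apply hz0
      have h3 : xp W z (1 : W.H Z) = 0 := by
        rw [xp, map_one, mul_one, h2]
      exact Pool.Agent.Y133.Half.xp_eq_zero_right one_ne_zero h3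
  by_cases hZ0 : ∀ w ∈ (algSys W).C Z, W.tr Z w = 0
  · have h0 : ∀ n, cycRank ops ((pw X n).prod Z) = 0 := fun n => by
      rw [← ha]; exact a_eq_zero_right hZ0 _
    exact htop (fun M => ⟨0, fun n _ => by rw [h0, mul_zero]; exact Nat.zero_le _⟩)
      (fun h => hzero 0 (h0 0) (h 0))
  push Not at hZ0
  obtain ⟨w', hw', hw'0⟩ := hZ0
  obtain ⟨w, hw, hw1⟩ : ∃ w ∈ (algSys W).C Z, W.tr Z w = 1 :=
    ⟨(W.tr Z w')⁻¹ • w', Submodule.smul_mem _ _ hw', by
      rw [map_smul, smul_eq_mul, inv_mul_cancel₀ hw'0]⟩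
  have hF := full_of_num hl hl1 hD
  have hβ : ∀ n, 0 < cycRank ops (pw X n) := by
    intro n
    obtain ⟨m, hm, hm1⟩ := (algSys W).exists_lam hl hl1 n
    rw [← ha]
    exact (algSys W).a_pos hm hm1
  have hαβ : ∀ n, cycRank ops (pw X n) ≤ cycRank ops ((pw X n).prod Z) := by
    intro n
    rw [← ha, ← ha]
    exact a_ge _ hw hw1 _
  have hα : ∀ n, 0 < cycRank ops ((pw X n).prod Z) := fun n => lt_of_lt_of_le (hβ n) (hαβ n)
  have hup : ∀ l, cycRank ops ((pw X (l + l + 1)).prod Z) ≤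
      finrank W.K (W.H Z) * cycRank ops (pw X (l + l + 1)) := by
    intro l
    rw [← ha, ← ha]
    exact a_up_even _ X Z l
  have hsub : Tendsto (fun l : ℕ => l + l + 1) atTop atTop :=
    tendsto_atTop_mono (fun n => by simp only [id]; omega) tendsto_id
  -- the limit of the ranks
  obtain ⟨d, hd⟩ : ∃ d : ℕ, Tendsto (fun n => (cycRank ops ((pw X n).prod Z) : ℝ) /
      cycRank ops (pw X n)) atTop (𝓝 (d : ℝ)) := by
    rcases index_a hF hD Z with h | h
    · exact h
    · exfalso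
      have h1 := (tendsto_atTop.1 (h.comp hsub) ((finrank W.K (W.H Z) : ℝ) + 1)).exists
      obtain ⟨n, hn⟩ := h1
      have h2 : (cycRank ops ((pw X (n + n + 1)).prod Z) : ℝ) /
          cycRank ops (pw X (n + n + 1)) ≤ finrank W.K (W.H Z) := by
        rw [div_le_iff₀ (by exact_mod_cast hβ _)]
        exact_mod_cast hup n
      have h3 : ((finrank W.K (W.H Z) : ℝ) + 1) ≤ (cycRank ops ((pw X (n + n + 1)).prod Z) : ℝ) /
          cycRank ops (pw X (n + n + 1)) := hn
      linarith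
  have hd1 : 1 ≤ d := by
    have h1 : (1 : ℝ) ≤ d := by
      refine ge_of_tendsto' hd fun n => ?_
      rw [le_div_iff₀ (by exact_mod_cast hβ n), one_mul]
      exact_mod_cast hαβ n
    exact_mod_cast h1
  have hdb : d ≤ finrank W.K (W.H Z) := by
    have h1 : (d : ℝ) ≤ finrank W.K (W.H Z) := by
      refine le_of_tendsto' (hd.comp hsub) fun n => ?_
      change (cycRank ops ((pw X (n + n + 1)).prod Z) : ℝ) / cycRank ops (pw X (n + n + 1)) ≤ _
      rw [div_le_iff₀ (by exact_mod_cast hβ _)]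
      exact_mod_cast hup n
    exact_mod_cast h1
  have hd0 : (0 : ℝ) < d := by exact_mod_cast hd1
  have hDX : ∀ n, HomEqNum W (pw X n) := fun n => (homEqNum_iff _).2 (hD n)
  -- the limit of the quotients
  obtain ⟨N, hN⟩ : ∃ N : ℕ∞, Tendsto (fun n => (finrank W.K (T.C ((pw X n).prod Z)) : ℝ≥0∞) /
        cycRank ops ((pw X n).prod Z)) atTop (𝓝 ((N : ℝ≥0∞) / d)) := by
    have e : ∀ n, (finrank W.K (T.C ((pw X n).prod Z)) : ℝ) / cycRank ops (pw X n) /
        ((cycRank ops ((pw X n).prod Z) : ℝ) / cycRank ops (pw X n)) =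
        (finrank W.K (T.C ((pw X n).prod Z)) : ℝ) / cycRank ops ((pw X n).prod Z) := by
      intro n
      have h1 : (cycRank ops (pw X n) : ℝ) ≠ 0 := by exact_mod_cast (hβ n).ne'
      exact div_div_div_cancel_right₀ h1 _ _
    rcases index_C hF T hT Z with ⟨N, h⟩ | h
    · refine ⟨N, ?_⟩
      have h1 : Tendsto (fun n => (finrank W.K (T.C ((pw X n).prod Z)) : ℝ) /
          cycRank ops ((pw X n).prod Z)) atTop (𝓝 ((N : ℝ) / d)) :=
        (h.div hd hd0.ne').congr e
      have h2 := (ENNReal.tendsto_ofReal h1).congr fun n => (ratio_eq_ofReal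
        (t := finrank W.K (T.C ((pw X n).prod Z))) (hα n)).symm
      have h3 : ENNReal.ofReal ((N : ℝ) / d) = ((N : ℕ∞) : ℝ≥0∞) / d := by
        rw [← ratio_eq_ofReal hd1]
        rfl
      rw [h3] at h2
      exact h2
    · refine ⟨⊤, ?_⟩
      have h1 : Tendsto (fun n => (finrank W.K (T.C ((pw X n).prod Z)) : ℝ) /
          cycRank ops ((pw X n).prod Z)) atTop atTop := by
        have h2 := h.atTop_mul_pos (inv_pos.2 hd0) (hd.inv₀ hd0.ne')
        refine h2.congr fun n => ?_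
        rw [← div_eq_mul_inv]
        exact e n
      have h2 := ENNReal.tendsto_ofReal_atTop.comp h1
      have h3 : (ENNReal.ofReal ∘ fun n => (finrank W.K (T.C ((pw X n).prod Z)) : ℝ) /
          cycRank ops ((pw X n).prod Z)) =
          fun n => (finrank W.K (T.C ((pw X n).prod Z)) : ℝ≥0∞) /
            cycRank ops ((pw X n).prod Z) := by
        funext n
        exact (ratio_eq_ofReal (hα n)).symm
      rw [h3] at h2
      have h4 : ((⊤ : ℕ∞) : ℝ≥0∞) / d = ⊤ := by
        rw [ENat.toENNReal_top, ENNReal.top_div_of_ne_top (ENNReal.natCast_ne_top d)]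
      rw [h4]
      exact h2
  have hST : ∀ n, cycRank ops ((pw X n).prod Z) ≤ finrank W.K (T.C ((pw X n).prod Z)) := by
    intro n
    have h1 := (algSys W).a_add_num ((pw X n).prod Z)
    have h2 := Submodule.finrank_mono (hT ((pw X n).prod Z))
    rw [ha] at h1
    change _ = finrank W.K (algSpan W ((pw X n).prod Z)) at h1
    omega
  have hd0' : (d : ℝ≥0∞) ≠ 0 := by exact_mod_cast (show d ≠ 0 by omega)
  have hdN : (d : ℕ∞) ≤ N := by
    have h1 : (1 : ℝ≥0∞) ≤ (N : ℝ≥0∞) / d := by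
      refine ge_of_tendsto' hN fun n => ?_
      rw [ENNReal.le_div_iff_mul_le (Or.inl (by exact_mod_cast (hα n).ne'))
        (Or.inl (ENNReal.natCast_ne_top _)), one_mul]
      exact_mod_cast hST n
    rw [ENNReal.le_div_iff_mul_le (Or.inl hd0') (Or.inl (ENNReal.natCast_ne_top _)), one_mul] at h1
    have h2 : (((d : ℕ∞)) : ℝ≥0∞) ≤ (N : ℝ≥0∞) := by
      rw [ENat.toENNReal_coe]; exact h1
    exact ENat.toENNReal_le.1 h2
  refine ⟨N, d, hd1, hdb, hdN, hN, ⟨?_, ?_⟩, fun _ => ⟨hDX, hd⟩⟩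
  · -- the limit one
    intro hNd
    rcases fixed_law (S := algSys W) (T := T) hT X Z with h | h
    · exact fun n => ⟨(h n).1.symm, (homEqNum_iff _).2 (h n).2⟩
    exfalso
    have hp : (0 : ℝ) < (finrank W.K (W.H Z) : ℝ) + 1 := by positivity
    obtain ⟨n₀, hn₀⟩ := h (1 / (2 * ((finrank W.K (W.H Z) : ℝ) + 1))) (by positivity)
    set c : ℝ := 1 - 1 / (2 * ((finrank W.K (W.H Z) : ℝ) + 1)) with hc
    have hc1 : c < 1 := by
      rw [hc]
      have : 0 < 1 / (2 * ((finrank W.K (W.H Z) : ℝ) + 1)) := by positivity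
      linarith
    have hc0 : 0 < c := by
      rw [hc, sub_pos, div_lt_one (by positivity)]
      have : (0 : ℝ) ≤ finrank W.K (W.H Z) := Nat.cast_nonneg _
      linarith
    have h1 : ∀ n ≥ n₀, (1 / c) ≤ (finrank W.K (T.C ((pw X n).prod Z)) : ℝ) /
        cycRank ops ((pw X n).prod Z) := by
      intro n hn
      have h2 := hn₀ n hn
      have h3 : (1 - 1 / ((finrank W.K (W.H Z) : ℝ) + 1) +
          1 / (2 * ((finrank W.K (W.H Z) : ℝ) + 1))) = c := by
        rw [hc]; field_simp; ring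
      rw [ha, h3] at h2
      rw [div_le_div_iff₀ hc0 (by exact_mod_cast hα n), one_mul, mul_comm]
      exact h2
    have h4 : Tendsto (fun n => (finrank W.K (T.C ((pw X n).prod Z)) : ℝ≥0∞) /
        cycRank ops ((pw X n).prod Z)) atTop (𝓝 1) := by
      rw [hNd, ENat.toENNReal_coe, ENNReal.div_self hd0' (ENNReal.natCast_ne_top d)] at hN
      exact hN
    have h5 : Tendsto (fun n => (finrank W.K (T.C ((pw X n).prod Z)) : ℝ) /
        cycRank ops ((pw X n).prod Z)) atTop (𝓝 1) := by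
      have h6 := (ENNReal.tendsto_toReal ENNReal.one_ne_top).comp h4
      rw [ENNReal.toReal_one] at h6
      refine h6.congr fun n => ?_
      simp [ENNReal.toReal_div]
    have h6 : 1 / c ≤ 1 := ge_of_tendsto h5 (eventually_atTop.2 ⟨n₀, h1⟩)
    rw [div_le_one hc0] at h6
    linarith
  · intro h
    have h1 : ∀ n, (finrank W.K (T.C ((pw X n).prod Z)) : ℝ≥0∞) /
        cycRank ops ((pw X n).prod Z) = 1 := by
      intro n
      obtain ⟨h2, h3⟩ := h n
      have h4 := (algSys W).a_add_num ((pw X n).prod Z)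
      rw [(homEqNum_iff _).1 h3, finrank_bot, add_zero, ha] at h4
      have h5 : finrank W.K (T.C ((pw X n).prod Z)) = cycRank ops ((pw X n).prod Z) := by
        rw [h2, h4]; rfl
      rw [h5]
      exact ENNReal.div_self (by exact_mod_cast (hα n).ne') (ENNReal.natCast_ne_top _)
    simp only [h1] at hN
    have h2 := tendsto_nhds_unique hN tendsto_const_nhds
    rw [ENNReal.div_eq_one_iff hd0' (ENNReal.natCast_ne_top d)] at h2
    have h3 : (N : ℝ≥0∞) = ((d : ℕ∞) : ℝ≥0∞) := by rw [h2, ENat.toENNReal_coe]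
    exact ENat.toENNReal_inj.1 h3

end Pool.Agent.U226.RG
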