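import Pool.Agent.U226.RG.Rel
import Pool.Agent.U226.SR.Half
import Pool.Agent.Y133.Half.PredSys

/-!
# The half law for classes given by a property, on the products with a fixed variety
-/

set_option linter.unusedSectionVars false
set_option autoImplicit false

open CategoryTheory AlgebraicGeometry

universe u v

namespace Pool.Agent.U226.RG

open Module
open Pool.Agent.H914 Pool.Agent.H914.VarClass Pool.Agent.H914.VarClass.Obj
  Pool.Agent.H914.WeilCohomology
open Pool.Agent.N181.Gap (ClSys tot le_tot tot_ind tot_map tot_push tot_mul one_mem_tot Isoc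
  isoc_pow finrank_H_pow Fails)
open Pool.Agent.N181.Mod (sysA)
open Pool.Agent.N181.Gap (powProd powProd_add)
open Pool.Agent.Y133.Half (ClassPred pw PH)
open Pool.Agent.Y133.Half.Sys (Nondeg)

variable {k : Type u} [Field k] {𝒱 : VarClass k} {ops : CycleOps 𝒱}
  {W : WeilCohomology.{u, v} ops} {X Y Z P Q N P₀ : 𝒱.Obj}

/-- The system of all classes. -/
noncomputable def toHalf (𝒮 : ClSys W) : Pool.Agent.Y133.Half.Sys W where
  C Z := tot 𝒮.toSys Z
  even {Z c} hc := by
    refine tot_ind (p := fun c => c ∈ PH W Z 0) (Submodule.zero_mem _)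
      (fun a b ha hb => Submodule.add_mem _ ha hb) ?_ hc
    intro j x hx
    exact Pool.Agent.Y133.Half.PH.of' (b := 0) (Nat.mul_mod_right 2 j) (𝒮.gr Z j hx)
  one Z := 𝒮.alg_tot Z (one_mem_tot Z)
  mul hc hd := 𝒮.mul_tot hc hd
  map f _ hc := tot_map f hc
  push f _ hc := tot_push f hc

/-- The powers. -/
lemma isoc_pw (Y T : 𝒱.Obj) (n : ℕ) : Isoc ((pw Y n).prod T) (powProd Y T (n + 1)) := by
  induction n generalizing T with
  | zero => exact Isoc.refl _
  | succ n ih =>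
    have h1 := (Isoc.asc (pw Y n) Y T).trans (ih (Y.prod T))
    have h2 := powProd_add Y T 1 (n + 1)
    have h3 : powProd Y (powProd Y T 1) (n + 1) = powProd Y T (n + 1 + 1) := h2
    exact h3 ▸ h1

/-- The growth of the number of classes. -/
lemma grow_cl (𝒮 : ClSys W) (Y Z : 𝒱.Obj) (hY1 : (1 : W.H Y) ≠ 0) :
    ∃ D : ℕ, ∀ J : ℕ, finrank W.K (W.H Z) * finrank W.K (W.H Y) ^ J ≤
      D * ((J + 1) ^ D * finrank W.K (tot 𝒮.toSys (powProd Y Z J))) := by
  set h := finrank W.K (W.H Y) with hh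
  set hz := finrank W.K (W.H Z) with hhz
  have hh0 : 0 < h := by
    rw [hh, Module.finrank_pos_iff]
    exact ⟨1, 0, hY1⟩
  by_cases hZ1 : (1 : W.H Z) = 0
  · have hz0 : hz = 0 := by
      have h2 : ∀ x : W.H Z, x = 0 := fun x => by rw [← one_mul x, hZ1, zero_mul]
      rw [hhz, Module.finrank_zero_iff]
      exact ⟨fun a b => by rw [h2 a, h2 b]⟩
    refine ⟨0, fun J => ?_⟩
    rw [hz0, zero_mul]
    exact Nat.zero_le _
  have hz1 : 0 < hz := by
    rw [hhz, Module.finrank_pos_iff]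
    exact ⟨1, 0, hZ1⟩
  refine ⟨hz * h + hz + h ^ 2, fun J => ?_⟩
  set D := hz * h + hz + h ^ 2 with hD
  set P := finrank W.K (tot 𝒮.toSys (powProd Y Z J)) with hP
  have hP1 : 1 ≤ P := by
    have h1 : 0 < finrank W.K (W.H (powProd Y Z J)) := by
      rw [finrank_H_pow]
      positivity
    have h2 : Nontrivial (W.H (powProd Y Z J)) := Module.nontrivial_of_finrank_pos (R := W.K) h1
    have h3 : (1 : W.H (powProd Y Z J)) ∈ tot 𝒮.toSys (powProd Y Z J) :=
      𝒮.alg_tot _ (one_mem_tot _)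
    rw [Nat.succ_le_iff, hP, Module.finrank_pos_iff]
    exact ⟨⟨1, h3⟩, 0, fun h4 => one_ne_zero (congrArg Subtype.val h4)⟩
  rcases Nat.lt_or_ge J 2 with hJ | hJ
  · have h1 : h ^ J ≤ h + 1 := by
      interval_cases J
      · rw [pow_zero]; omega
      · rw [pow_one]; omega
    calc hz * h ^ J ≤ hz * (h + 1) := Nat.mul_le_mul_left _ h1
      _ ≤ D := by rw [hD]; nlinarith
      _ = D * (1 * 1) := by ring
      _ ≤ D * ((J + 1) ^ D * P) := by
          refine Nat.mul_le_mul_left _ (Nat.mul_le_mul ?_ hP1)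
          exact Nat.one_le_pow _ _ (Nat.succ_pos J)
  · obtain ⟨n, hn⟩ : ∃ n, J = 2 * (n + 1) ∨ J = 2 * (n + 1) + 1 := ⟨J / 2 - 1, by omega⟩
    set A := (pw Y n).prod (pw Y n) with hA
    have h1 := (toHalf 𝒮).growth Y n
    have h2 : finrank W.K ((toHalf 𝒮).C A) ≤
        finrank W.K (tot 𝒮.toSys (powProd Y Z (n + 1 + (n + 1)))) := by
      have h3 : finrank W.K (tot 𝒮.toSys A) ≤ finrank W.K (tot 𝒮.toSys (Z.prod A)) :=
        Pool.Agent.N181.Gap.finrank_tot_prod 𝒮.toSys hZ1 A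
      have h4 : finrank W.K ((toHalf 𝒮).C (Z.prod A)) = finrank W.K ((toHalf 𝒮).C (A.prod Z)) :=
        (toHalf 𝒮).finrank_C_iso (Pool.Agent.Y133.Half.prodComm Z A)
      have h5 : Isoc (A.prod Z) (powProd Y (powProd Y Z (n + 1)) (n + 1)) :=
        ((Isoc.asc (pw Y n) (pw Y n) Z).trans (Isoc.prod (pw Y n) (isoc_pw Y Z n))).trans
          (isoc_pw Y (powProd Y Z (n + 1)) n)
      rw [powProd_add] at h5
      have h6 := h5.finrank_tot 𝒮.toSys
      calc finrank W.K ((toHalf 𝒮).C A) ≤ finrank W.K (tot 𝒮.toSys (Z.prod A)) := h3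
        _ = finrank W.K (tot 𝒮.toSys (A.prod Z)) := h4
        _ = _ := h6
    have h7 : finrank W.K (tot 𝒮.toSys (powProd Y Z (n + 1 + (n + 1)))) ≤ P := by
      rcases hn with hn | hn
      · rw [hP, hn, two_mul]
      · have h3 := Pool.Agent.N181.Gap.finrank_tot_prod 𝒮.toSys hY1
          (powProd Y Z (n + 1 + (n + 1)))
        have h4 : Y.prod (powProd Y Z (n + 1 + (n + 1))) = powProd Y Z J := by
          conv_rhs => rw [show J = (n + 1 + (n + 1)) + 1 by omega]
          rfl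
        rw [h4] at h3
        exact h3
    have h8 : h ^ J ≤ h * h ^ (2 * (n + 1)) := by
      rw [← pow_succ']
      exact Nat.pow_le_pow_right hh0 (by omega)
    have h9 : h ^ J ≤ h * (P * (J + 1) ^ (h ^ 2)) := by
      refine h8.trans (Nat.mul_le_mul_left _ (h1.trans ?_))
      exact Nat.mul_le_mul (h2.trans h7) (Nat.pow_le_pow_left (by omega) _)
    calc hz * h ^ J ≤ hz * (h * (P * (J + 1) ^ (h ^ 2))) := Nat.mul_le_mul_left _ h9
      _ = (hz * h) * ((J + 1) ^ (h ^ 2) * P) := by ring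
      _ ≤ D * ((J + 1) ^ D * P) := by
          refine Nat.mul_le_mul (by omega) (Nat.mul_le_mul_right _ ?_)
          exact Nat.pow_le_pow_right (Nat.succ_pos J) (by omega)

/-- If not all classes are algebraic, the numerical rank is smaller. -/
lemma fails_of (𝒮 : ClSys W) (h : tot (sysA W) Y ≠ tot 𝒮.toSys Y) : Fails 𝒮 Y := by
  intro h0
  apply h
  have h1 := Pool.Agent.N181.Gap.rkSum_add (W := W) Y
  have h2 : finrank W.K (tot (sysA W) Y) ≤ finrank W.K (tot 𝒮.toSys Y) :=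
    Submodule.finrank_mono (𝒮.alg_tot Y)
  apply Submodule.eq_of_le_of_finrank_le (𝒮.alg_tot Y)
  have h3 : Pool.Agent.N181.Gap.rkSum ops Y = finrank W.K (tot 𝒮.toSys Y) := h0
  omega

/-- **The half law**, for the products of the powers with a fixed variety. -/
theorem half_pw (𝒮 : ClSys W) {m : ℕ} (hm : tot (sysA W) (pw Y m) ≠ tot 𝒮.toSys (pw Y m))
    (Z : 𝒱.Obj) : ∃ C : ℝ, 0 ≤ C ∧ ∀ n : ℕ,
      (finrank W.K (tot (sysA W) ((pw Y n).prod Z)) : ℝ) ≤
        (1 / 2 + C / Real.sqrt (n + 1)) * finrank W.K (tot 𝒮.toSys ((pw Y n).prod Z)) := by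
  have hI : Isoc (pw Y m) (powProd Y Y m) := by
    rcases m with _ | m
    · exact Isoc.refl _
    · exact isoc_pw Y Y m
  have hF : Fails 𝒮 (powProd Y Y m) := by
    apply fails_of
    intro h0
    apply hm
    apply Submodule.eq_of_le_of_finrank_eq (𝒮.alg_tot _)
    rw [hI.finrank_tot (sysA W), hI.finrank_tot 𝒮.toSys, h0]
  have hY1 : (1 : W.H Y) ≠ 0 := by
    intro h0
    have h1 : ∀ x : W.H (powProd Y Y m), x = 0 := by
      have h2 : finrank W.K (W.H (powProd Y Y m)) = 0 := by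
        have h3 : finrank W.K (W.H Y) = 0 := by
          have h4 : ∀ x : W.H Y, x = 0 := fun x => by rw [← one_mul x, h0, zero_mul]
          rw [Module.finrank_zero_iff]
          exact ⟨fun a b => by rw [h4 a, h4 b]⟩
        rw [finrank_H_pow, h3, mul_zero]
      have h5 : Subsingleton (W.H (powProd Y Y m)) := Module.finrank_zero_iff.1 h2
      intro x
      exact Subsingleton.elim _ _
    apply hF
    have h6 : tot 𝒮.toSys (powProd Y Y m) = ⊥ := by
      rw [eq_bot_iff]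
      intro x _
      rw [h1 x]
      exact Submodule.zero_mem _
    have h7 := Pool.Agent.N181.Gap.rkSum_add (W := W) (powProd Y Y m)
    have h8 : finrank W.K (tot (sysA W) (powProd Y Y m)) = 0 := by
      have h9 := 𝒮.alg_tot (powProd Y Y m)
      rw [h6, le_bot_iff] at h9
      rw [h9, finrank_bot]
    rw [h6, finrank_bot]
    omega
  obtain ⟨D, hD⟩ := grow_cl 𝒮 Y Z hY1
  obtain ⟨C, hC, hb⟩ := Pool.Agent.U226.SR.half_law 𝒮 m hF hY1 Z D hD
  refine ⟨C, hC, fun n => ?_⟩
  have h1 := hb (n + 1)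
  have h2 := isoc_pw Y Z n
  rw [h2.finrank_tot (sysA W), h2.finrank_tot 𝒮.toSys]
  refine h1.trans (mul_le_mul_of_nonneg_right ?_ (Nat.cast_nonneg _))
  have h3 : Real.sqrt ((n : ℝ) + 1) ≤ Real.sqrt (((n + 1 : ℕ) : ℝ) + 1) := by
    apply Real.sqrt_le_sqrt
    push_cast
    linarith
  have h4 : 0 < Real.sqrt ((n : ℝ) + 1) := Real.sqrt_pos.2 (by positivity)
  have h5 : C / Real.sqrt (((n + 1 : ℕ) : ℝ) + 1) ≤ C / Real.sqrt ((n : ℝ) + 1) :=
    div_le_div_of_nonneg_left hC h4 h3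
  linarith

end Pool.Agent.U226.RG
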