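import Pool.Agent.U226.RG.Rel

/-!
# The law for the products of the powers of a variety with a fixed variety, in general
-/

set_option linter.unusedSectionVars false
set_option autoImplicit false

open CategoryTheory AlgebraicGeometry

universe u v

namespace Pool.Agent.U226.RG

open Module
open Pool.Agent.H914 Pool.Agent.H914.VarClass Pool.Agent.H914.VarClass.Obj
  Pool.Agent.H914.WeilCohomology Pool.Agent.Y133.Half Pool.Agent.Y133.Half.Sys

variable {k : Type u} [Field k] {𝒱 : VarClass k} {ops : CycleOps 𝒱}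
  {W : WeilCohomology.{u, v} ops} {X Y Z P Q N P₀ : 𝒱.Obj} {S T : Sys W}

/-- The relative step for numerically trivial classes. -/
theorem num_key (hne : S.Num (P.prod Z) ≠ ⊥) (N : 𝒱.Obj) :
    ∃ g ∈ S.Op P P, g ∘ₗ g = g ∧ g ≠ 0 ∧ S.r P g N ≤ finrank W.K (S.Num (N.prod Z)) := by
  -- the numerically trivial operators from `Z` to `P`
  have hlt : (⊥ : Submodule W.K (W.H Z →ₗ[W.K] W.H P)) < S.NOp Z P := by
    rw [bot_lt_iff_ne_bot]
    intro h0
    obtain ⟨z, hz, hz0⟩ := Submodule.exists_mem_ne_zero_of_ne_bot hne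
    apply hz0
    have h1 : W.map (swap Z P) z ∈ S.Num (Z.prod P) := Num.map _ hz
    have h2 : W.corr (W.map (swap Z P) z) ∈ S.NOp Z P := NOp.corr h1
    rw [h0, Submodule.mem_bot] at h2
    have h3 : W.map (swap Z P) z = 0 := corrL_injective (h2.trans (corr_zero (W := W)).symm)
    have h4 := swap_swap (W := W) z
    rw [h3, map_zero] at h4
    exact h4.symm
  let X : Fin 2 → 𝒱.Obj := ![P, N]
  obtain ⟨g, hg, hgg, h0, hs⟩ := step_gen (S.cat X) (U := W.H Z) 0 1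
    (M' := ⊥) (M := S.NOp Z P) (N' := ⊥) (N := S.NOp Z N)
    (fun a _ m hm => by rw [(Submodule.mem_bot _).1 hm, LinearMap.comp_zero]; exact Submodule.zero_mem _)
    (fun a ha m hm => NOp.comp_left (S := S) (X := Z) (Y := P) (Z := P) ha hm)
    (fun v hv m hm => NOp.comp_left (S := S) (X := Z) (Y := P) (Z := N) hv hm)
    (fun u _ n hn => by rw [(Submodule.mem_bot _).1 hn, LinearMap.comp_zero]; exact Submodule.zero_mem _)
    hlt bot_le
  refine ⟨g, hg, hgg, h0, ?_⟩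
  have h1 : S.r P g N = rk (A := (S.cat X).S 0 1) (B := (S.cat X).S 1 0)
      ((S.cat X).B 0 1 g LinearMap.id) :=
    (S.rk_BO_r (P := P) (Z := N) (g := g) (Op.ev (S := S) hg)).symm
  rw [finrank_bot, zero_add] at hs
  rw [h1]
  refine hs.trans ?_
  have h2 : finrank W.K (S.NOp Z N) = finrank W.K (S.Num (Z.prod N)) :=
    (Submodule.equivMapOfInjective _ corrL_injective _).finrank_eq.symm
  have h3 := S.a_add_num (Z.prod N)
  have h4 := S.a_add_num (N.prod Z)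
  have h5 := S.a_iso (prodComm Z N)
  have h6 := S.finrank_C_iso (prodComm Z N)
  change finrank W.K (S.NOp Z N) ≤ _
  omega

/-- Passage to the other parity. -/
lemma num_succ {l : W.H X} (hl : l ∈ S.C X) (hl1 : W.tr X l = 1) {m : ℕ}
    (h : S.Num ((pw X m).prod Z) ≠ ⊥) : S.Num ((pw X (m + 1)).prod Z) ≠ ⊥ := by
  obtain ⟨z, hz, hz0⟩ := Submodule.exists_mem_ne_zero_of_ne_bot h
  have e : (pw X (m + 1)).prod Z ≅ ((pw X m).prod Z).prod X :=
    θ₃ (pw X m) X Z ≪≫ prodCongr (Iso.refl _) (prodComm X Z) ≪≫ (θ₃ (pw X m) Z X).symm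
  have h1 : xp W z l ∈ S.Num (((pw X m).prod Z).prod X) :=
    Sys.Num.mul (Sys.Num.map _ hz) (S.map _ hl)
  have h2 : xp W z l ≠ 0 := by
    intro h0
    have h3 := push_fst (W := W) z l (S.even hl)
    rw [h0, map_zero, hl1, one_smul] at h3
    exact hz0 h3.symm
  intro h3
  have h4 : W.map e.hom (xp W z l) ∈ S.Num ((pw X (m + 1)).prod Z) := Num.map _ h1
  rw [h3, Submodule.mem_bot] at h4
  apply h2
  apply map_inj_of_iso e
  rw [h4, map_zero]

/-- The lower bound for the part cut out by an idempotent. -/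
lemma r_low (hX : 0 < finrank W.K (W.H X))
    (hB : ∀ c : ℝ, 0 ≤ c → c < (finrank W.K (W.H X) : ℝ) ^ 2 →
      ∃ l₀, ∀ l ≥ l₀, c * S.al X l ≤ S.al X (l + 1)) (m' : ℕ) {ε : ℝ} (hε : 0 < ε) :
    ∃ l₀ : ℕ, ∀ l' ≥ l₀, ∀ g ∈ S.Op (pw X m') (pw X m'), g ∘ₗ g = g → g ≠ 0 →
      ((finrank W.K (W.H X) : ℝ) ^ (m' % 2 + 1) - ε) * S.al X l' ≤
        S.r (pw X m') g ((pw X (m' % 2)).prod ((pw X l').prod (pw X l'))) := by
  set b := finrank W.K (W.H X) with hb
  set m₀ := m' % 2 with hm₀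
  obtain ⟨j, hj⟩ : ∃ j, m' + m₀ + 2 = 2 * j := ⟨(m' + m₀ + 2) / 2, by omega⟩
  have hB2 : (0 : ℝ) < (b : ℝ) ^ 2 := by positivity
  obtain ⟨c, hc0, hcB, hc⟩ := exists_close hB2 j hε
  obtain ⟨l₀, hl₀⟩ := hB c hc0 hcB
  refine ⟨l₀, fun l' hl' g hg hgg hg0 => ?_⟩
  have hdP : finrank W.K (W.H (pw X m')) = b ^ (m' + 1) := finrank_pw _ _
  have hdP₀ : finrank W.K (W.H (pw X m₀)) = b ^ (m₀ + 1) := finrank_pw _ _
  have halY : S.a ((pw X l').prod (pw X l')) = S.al X l' := rfl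
  have haP : S.a (((pw X m').prod (pw X m₀)).prod ((pw X l').prod (pw X l'))) =
      S.al X (l' + j) := by
    rw [S.a_iso (prodCongr (pwAdd X m' m₀) (Iso.refl _))]
    exact S.a_pw X (by omega)
  have hpow := ratio_pow hc0 hl₀ j l' hl'
  have h4 := S.r_lower (P₀ := pw X m₀) hg hgg hg0 (pw X l')
  rw [haP, hdP, hdP₀, halY] at h4
  have h5 : (S.al X (l' + j) : ℝ) + (b : ℝ) ^ (m₀ + 1) * S.al X l' ≤
      S.r (pw X m') g ((pw X m₀).prod ((pw X l').prod (pw X l'))) +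
        (b : ℝ) ^ (m' + 1) * (b : ℝ) ^ (m₀ + 1) * S.al X l' := by exact_mod_cast h4
  have h6 : (b : ℝ) ^ (m' + 1) * (b : ℝ) ^ (m₀ + 1) = ((b : ℝ) ^ 2) ^ j := by
    rw [← pow_add, ← pow_mul]
    congr 1
    omega
  rw [h6] at h5
  have h7 : (0 : ℝ) ≤ S.al X l' := Nat.cast_nonneg _
  nlinarith [mul_le_mul_of_nonneg_right hc.le h7]

/-- `X^n × Z` as `X^(m₀+1) × (Y × Y)` times `Z`. -/
noncomputable def isoN (X Z : 𝒱.Obj) {m₀ l' n : ℕ} (h : n = m₀ + (l' + l' + 1) + 1) :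
    ((pw X m₀).prod ((pw X l').prod (pw X l'))).prod Z ≅ (pw X n).prod Z :=
  prodCongr (prodCongr (Iso.refl _) (pwAdd X l' l') ≪≫ pwAdd X m₀ (l' + l' + 1) ≪≫
    eqToIso (congrArg (pw X) h.symm)) (Iso.refl _)

/-- The upper bound for the rank of the intersection form on `X^n × Z`. -/
lemma a_up (S : Sys W) (X Z : 𝒱.Obj) {m₀ l' n : ℕ} (h : n = m₀ + (l' + l' + 1) + 1) :
    S.a ((pw X n).prod Z) ≤
      finrank W.K (W.H Z) * finrank W.K (W.H X) ^ (m₀ + 1) * S.al X l' := by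
  let χ : (Z.prod (pw X m₀)).prod ((pw X l').prod (pw X l')) ≅ (pw X n).prod Z :=
    (θ₃ Z (pw X m₀) ((pw X l').prod (pw X l'))) ≪≫
      prodComm Z ((pw X m₀).prod ((pw X l').prod (pw X l'))) ≪≫ isoN X Z h
  rw [← S.a_iso χ]
  refine (S.a_le _ _).trans (le_of_eq ?_)
  rw [Y133.Half.finrank_prod, finrank_pw]
  rfl

lemma a_eq_zero_prod (hZ : ∀ l ∈ S.C X, W.tr X l = 0) (n : ℕ) (Z : 𝒱.Obj) :
    S.a ((pw X n).prod Z) = 0 := by
  have h1 : ∀ c ∈ S.C ((pw X n).prod Z), W.tr ((pw X n).prod Z) c = 0 := by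
    intro c hc
    have h2 := W.tr_push (fst (pw X n) Z ≫ prj X n 0) c 1
    rw [mul_one, map_one, mul_one] at h2
    rw [← h2]
    exact hZ _ (S.push _ hc)
  have h3 : S.F ((pw X n).prod Z) 1 = 0 := by
    apply LinearMap.ext
    intro c
    apply LinearMap.ext
    intro d
    exact h1 _ (S.mul c.2 d.2)
  rw [a, h3, rk]
  simp

lemma a_eq_zero_of_zero {V : 𝒱.Obj} (h : (1 : W.H V) = 0) : S.a V = 0 := by
  have h1 := S.a_add_num V
  have h2 : finrank W.K (S.C V) ≤ finrank W.K (W.H V) := Submodule.finrank_le _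
  have h3 : finrank W.K (W.H V) = 0 := by
    have : Subsingleton (W.H V) := ⟨fun a b => by
      rw [← one_mul a, ← one_mul b, h, zero_mul, zero_mul]⟩
    exact Module.finrank_zero_of_subsingleton
  omega

/-- The dimension of the classes on `X^q` is at most that on `X^q × ...`. -/
lemma finrank_right (T : Sys W) (A : 𝒱.Obj) {V : 𝒱.Obj} (hA : (1 : W.H A) ≠ 0) :
    finrank W.K (T.C V) ≤ finrank W.K (T.C (A.prod V)) := by
  apply T.finrank_C_le (snd A V)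
  intro x y hxy
  have h3 : xp W (1 : W.H A) (x - y) = 0 := by
    rw [xp, map_one, one_mul, map_sub, hxy, sub_self]
  exact sub_eq_zero.1 (xp_eq_zero_left hA h3)

/-- If some numerically trivial class of `S` on a power of `X` is nonzero, the rank of the
intersection form on the classes of `S` on `X^n × Z` is negligible. -/
theorem small_prod (hST : ∀ X, S.C X ≤ T.C X) {q : ℕ} (hq : S.Num (pw X q) ≠ ⊥) (Z : 𝒱.Obj)
    (M : ℕ) : ∃ n₀ : ℕ, ∀ n ≥ n₀,
      M * S.a ((pw X n).prod Z) ≤ finrank W.K (T.C ((pw X n).prod Z)) := by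
  obtain ⟨z, hz, hz0⟩ := Submodule.exists_mem_ne_zero_of_ne_bot hq
  have h1q : (1 : W.H (pw X q)) ≠ 0 := one_ne_zero_of hz0
  set b := finrank W.K (W.H X) with hb
  have hX : 0 < b := by
    rw [Nat.pos_iff_ne_zero]
    intro h0
    have : Nontrivial (W.H (pw X q)) := ⟨⟨1, 0, h1q⟩⟩
    have h1 : 0 < finrank W.K (W.H (pw X q)) := Module.finrank_pos
    rw [finrank_pw, ← hb, h0, zero_pow (Nat.succ_ne_zero _)] at h1
    exact lt_irrefl _ h1
  have h1X : ∀ n, (1 : W.H (pw X n)) ≠ 0 := by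
    intro n
    have : Nontrivial (W.H (pw X n)) := by
      apply Module.nontrivial_of_finrank_pos (R := W.K)
      rw [finrank_pw]
      exact Nat.pow_pos hX
    exact one_ne_zero
  by_cases h1Z : (1 : W.H Z) = 0
  · refine ⟨0, fun n _ => ?_⟩
    have h2 : (1 : W.H ((pw X n).prod Z)) = 0 := by
      rw [← map_one (W.map (snd (pw X n) Z)), h1Z, map_zero]
    rw [a_eq_zero_of_zero h2, mul_zero]
    exact Nat.zero_le _
  rcases S.num_or T hST X with hN | hN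
  · exact absurd (hN q) hq
  set bZ := finrank W.K (W.H Z) with hbZ
  obtain ⟨n₀, hn₀⟩ := hN (M * (bZ * b ^ 2))
  refine ⟨n₀ + 4, fun n hn => ?_⟩
  obtain ⟨m₀, l, hm₀, hl⟩ : ∃ m₀ l, m₀ ≤ 1 ∧ n = m₀ + (l + l + 1) + 1 :=
    ⟨n % 2, (n - n % 2 - 2) / 2, by omega, by omega⟩
  have h2 := hn₀ (l + l + 1) (by omega)
  have h3 := a_up S X Z hl
  have h4 : S.al X l = S.a (pw X (l + l + 1)) := S.a_iso (pwAdd X l l)
  have h5 : finrank W.K (T.C (pw X (l + l + 1))) ≤ finrank W.K (T.C ((pw X n).prod Z)) := by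
    rw [← T.finrank_C_iso (isoN X Z hl), ← T.finrank_C_iso (pwAdd X l l)]
    have h6 := finrank_right T (pw X m₀) (V := (pw X l).prod (pw X l)) (h1X _)
    have h7 := finrank_right T Z (V := (pw X m₀).prod ((pw X l).prod (pw X l))) h1Z
    rw [T.finrank_C_iso (prodComm Z ((pw X m₀).prod ((pw X l).prod (pw X l))))] at h7
    exact h6.trans h7
  refine le_trans ?_ (h2.trans h5)
  rw [mul_assoc, ← h4]
  refine Nat.mul_le_mul_left _ (h3.trans ?_)
  refine Nat.mul_le_mul_right _ (Nat.mul_le_mul_left _ ?_)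
  exact Nat.pow_le_pow_right hX (by omega)

/-- **The law for a fixed factor**, without any assumption of nondegeneracy. -/
theorem fixed_law (hST : ∀ X, S.C X ≤ T.C X) (X Z : 𝒱.Obj) :
    (∀ n, S.C ((pw X n).prod Z) = T.C ((pw X n).prod Z) ∧ S.Num ((pw X n).prod Z) = ⊥) ∨
      ∀ ε : ℝ, 0 < ε → ∃ n₀ : ℕ, ∀ n ≥ n₀, (S.a ((pw X n).prod Z) : ℝ) ≤
        (1 - 1 / ((finrank W.K (W.H Z) : ℝ) + 1) + ε) *
          finrank W.K (T.C ((pw X n).prod Z)) := by
  set bZ := finrank W.K (W.H Z) with hbZ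
  have hbZ0 : (0 : ℝ) ≤ bZ := Nat.cast_nonneg _
  have hcst : 0 ≤ 1 - 1 / ((bZ : ℝ) + 1) := by
    rw [sub_nonneg, div_le_one (by positivity)]
    linarith
  -- the case of a small rank
  have hsmall : (∀ M : ℕ, ∃ n₀ : ℕ, ∀ n ≥ n₀,
      M * S.a ((pw X n).prod Z) ≤ finrank W.K (T.C ((pw X n).prod Z))) →
      ∀ ε : ℝ, 0 < ε → ∃ n₀ : ℕ, ∀ n ≥ n₀, (S.a ((pw X n).prod Z) : ℝ) ≤
        (1 - 1 / ((bZ : ℝ) + 1) + ε) * finrank W.K (T.C ((pw X n).prod Z)) := by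
    intro h ε hε
    obtain ⟨M, hM⟩ := exists_nat_gt (1 / ε)
    obtain ⟨n₀, hn₀⟩ := h M
    refine ⟨n₀, fun n hn => ?_⟩
    have h1 : (M : ℝ) * S.a ((pw X n).prod Z) ≤ finrank W.K (T.C ((pw X n).prod Z)) := by
      exact_mod_cast hn₀ n hn
    have h2 : (0 : ℝ) ≤ S.a ((pw X n).prod Z) := Nat.cast_nonneg _
    have h3 : 1 ≤ ε * M := by
      have := (mul_lt_mul_of_pos_left hM hε).le
      rwa [mul_one_div_cancel hε.ne'] at this
    have h4 : (0 : ℝ) ≤ finrank W.K (T.C ((pw X n).prod Z)) := Nat.cast_nonneg _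
    calc (S.a ((pw X n).prod Z) : ℝ) ≤ ε * M * S.a ((pw X n).prod Z) := by nlinarith
      _ = ε * (M * S.a ((pw X n).prod Z)) := by ring
      _ ≤ ε * finrank W.K (T.C ((pw X n).prod Z)) := mul_le_mul_of_nonneg_left h1 hε.le
      _ ≤ _ := by nlinarith
  by_cases hZ : ∀ l ∈ S.C X, W.tr X l = 0
  · exact Or.inr (hsmall fun M => ⟨0, fun n _ => by
      rw [a_eq_zero_prod hZ n Z, mul_zero]; exact Nat.zero_le _⟩)
  push Not at hZ
  obtain ⟨l', hl', hl'0⟩ := hZ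
  obtain ⟨l, hl, hl1⟩ : ∃ l ∈ S.C X, W.tr X l = 1 :=
    ⟨(W.tr X l')⁻¹ • l', Submodule.smul_mem _ _ hl', by
      rw [map_smul, smul_eq_mul, inv_mul_cancel₀ hl'0]⟩
  have h1 : (1 : W.H X) ≠ 0 := one_ne_zero_of (ne_zero_of_tr hl1)
  set b := finrank W.K (W.H X) with hb
  have hX : 0 < b := by
    have : Nontrivial (W.H X) := ⟨⟨1, 0, h1⟩⟩
    exact Module.finrank_pos
  have hpos : ∀ n, 0 < S.al X n := by
    intro n
    obtain ⟨m, hm, hm1⟩ := S.exists_lam hl hl1 n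
    refine S.a_pos (xp_mem_C S hm hm) ?_
    rw [tr_xp, hm1, mul_one]
  by_cases hN : ∀ q, S.Num (pw X q) = ⊥
  swap
  · push Not at hN
    obtain ⟨q, hq⟩ := hN
    exact Or.inr (hsmall (small_prod hST hq Z))
  have hB : ∀ c : ℝ, 0 ≤ c → c < (b : ℝ) ^ 2 → ∃ l₀, ∀ l ≥ l₀, c * S.al X l ≤ S.al X (l + 1) := by
    rcases ratio_dichotomy hpos (S.al_convex X) ((b : ℝ) ^ 2) with ⟨c, hc, hcB, h⟩ | hB
    · exfalso
      obtain ⟨n₀, hn₀⟩ := small_of (S := S) (T := S) hc hcB h hX (ε := 1 / 2) (by positivity)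
      have h2 := hn₀ n₀ le_rfl
      obtain ⟨m, hm, hm1⟩ := S.exists_lam hl hl1 n₀
      have h3 := S.a_pos hm hm1
      have h4 := S.a_add_num (pw X n₀)
      rw [hN n₀, finrank_bot, add_zero] at h4
      rw [← h4] at h2
      have h5 : (0 : ℝ) < S.a (pw X n₀) := by exact_mod_cast h3
      linarith
    · exact hB
  by_cases hgood : ∀ n, S.C ((pw X n).prod Z) = T.C ((pw X n).prod Z) ∧
      S.Num ((pw X n).prod Z) = ⊥
  · exact Or.inl hgood
  right
  push Not at hgood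
  -- the key inequality in every parity
  have hkey : ∀ p : ℕ, ∃ m' : ℕ, m' % 2 = p % 2 ∧ ∀ N : 𝒱.Obj,
      ∃ g ∈ S.Op (pw X m') (pw X m'), g ∘ₗ g = g ∧ g ≠ 0 ∧
        S.a (N.prod Z) + S.r (pw X m') g N ≤ finrank W.K (T.C (N.prod Z)) := by
    intro p
    obtain ⟨m, hm⟩ := hgood
    by_cases hC : S.C ((pw X m).prod Z) = T.C ((pw X m).prod Z)
    · have hne := hm hC
      obtain ⟨m', hm', hne'⟩ : ∃ m' : ℕ, m' % 2 = p % 2 ∧ S.Num ((pw X m').prod Z) ≠ ⊥ := by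
        by_cases h : m % 2 = p % 2
        · exact ⟨m, h, hne⟩
        · exact ⟨m + 1, by omega, num_succ hl hl1 hne⟩
      refine ⟨m', hm', fun N => ?_⟩
      obtain ⟨g, hg, hgg, h0, hr⟩ := num_key hne' N
      refine ⟨g, hg, hgg, h0, ?_⟩
      have h2 := S.a_add_num (N.prod Z)
      have h3 := Submodule.finrank_mono (hST (N.prod Z))
      omega
    · have hne : finrank W.K (S.C ((pw X m).prod Z)) < finrank W.K (T.C ((pw X m).prod Z)) :=
        Submodule.finrank_lt_finrank_of_lt (lt_of_le_of_ne (hST _) hC)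
      obtain ⟨m', hm', hne'⟩ : ∃ m', m' % 2 = p % 2 ∧
          finrank W.K (S.C ((pw X m').prod Z)) < finrank W.K (T.C ((pw X m').prod Z)) := by
        by_cases h : m % 2 = p % 2
        · exact ⟨m, h, hne⟩
        · exact ⟨m + 1, by omega, lt_succ_rel hST hl hl1 hne⟩
      refine ⟨m', hm', fun N => ?_⟩
      obtain ⟨g, hg, hgg, h0, hr⟩ := rel_key hST hne' N
      refine ⟨g, hg, hgg, h0, ?_⟩
      have h2 := S.a_add_num (N.prod Z)
      omega
  intro ε hε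
  have key : ∀ p : ℕ, ∃ n₀ : ℕ, ∀ n ≥ n₀, n % 2 = p % 2 →
      (S.a ((pw X n).prod Z) : ℝ) ≤
        (1 - 1 / ((bZ : ℝ) + 1) + ε) * finrank W.K (T.C ((pw X n).prod Z)) := by
    intro p
    obtain ⟨m', hm', hk⟩ := hkey p
    set δ := min ε 1 with hδ
    have hδ0 : 0 < δ := lt_min hε one_pos
    obtain ⟨l₀, hl₀⟩ := r_low (S := S) (X := X) hX hB m' hδ0
    refine ⟨2 * l₀ + m' % 2 + 2, fun n hn hpar => ?_⟩
    obtain ⟨l', hl'⟩ : ∃ l', n = m' % 2 + (l' + l' + 1) + 1 := ⟨(n - m' % 2 - 2) / 2, by omega⟩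
    obtain ⟨g, hg, hgg, hg0, hs⟩ := hk ((pw X (m' % 2)).prod ((pw X l').prod (pw X l')))
    have h2 := hl₀ l' (by omega) g hg hgg hg0
    rw [S.a_iso (isoN X Z hl'), T.finrank_C_iso (isoN X Z hl')] at hs
    have h3 := a_up S X Z hl'
    have h4 : (S.a ((pw X n).prod Z) : ℝ) +
        S.r (pw X m') g ((pw X (m' % 2)).prod ((pw X l').prod (pw X l'))) ≤
        finrank W.K (T.C ((pw X n).prod Z)) := by exact_mod_cast hs
    have h5 : (S.a ((pw X n).prod Z) : ℝ) ≤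
        bZ * (b : ℝ) ^ (m' % 2 + 1) * S.al X l' := by exact_mod_cast h3
    set t : ℝ := (finrank W.K (T.C ((pw X n).prod Z)) : ℝ) with ht
    set A : ℝ := (S.a ((pw X n).prod Z) : ℝ) with hA
    set al : ℝ := (S.al X l' : ℝ) with hal
    set B : ℝ := (b : ℝ) ^ (m' % 2 + 1) with hBdef
    have hal0 : 0 ≤ al := Nat.cast_nonneg _
    have hA0 : 0 ≤ A := Nat.cast_nonneg _
    have hb1 : (1 : ℝ) ≤ b := by exact_mod_cast hX
    have hB1 : 1 ≤ B := one_le_pow₀ hb1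
    -- `A + (B - δ) al ≤ t`, `A ≤ bZ B al`
    have h6 : A + (B - δ) * al ≤ t := by linarith
    have hδε : δ ≤ ε := min_le_left _ _
    have hδ1 : δ ≤ 1 := min_le_right _ _
    -- `(B - δ) al ≥ (1 - δ) B al`, hence `bZ t ≥ (bZ + 1 - δ) A`
    have h7 : (1 - δ) * A ≤ bZ * ((B - δ) * al) := by
      calc (1 - δ) * A ≤ (1 - δ) * (bZ * B * al) :=
            mul_le_mul_of_nonneg_left h5 (by linarith)
        _ = bZ * (((1 - δ) * B) * al) := by ring
        _ ≤ bZ * ((B - δ) * al) := by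
            apply mul_le_mul_of_nonneg_left _ hbZ0
            apply mul_le_mul_of_nonneg_right _ hal0
            nlinarith
    have h8 : (bZ + 1 - δ) * A ≤ bZ * t := by nlinarith
    have hp : (0 : ℝ) < (bZ : ℝ) + 1 := by positivity
    have hAt : A ≤ t := by
      have : 0 ≤ (B - δ) * al := mul_nonneg (by linarith) hal0
      linarith
    have ht0 : 0 ≤ t := hA0.trans hAt
    -- conclusion
    have h9 : ((bZ : ℝ) + 1) * A ≤ (bZ + ε) * t := by nlinarith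
    have h10 : A ≤ ((bZ + ε) / ((bZ : ℝ) + 1)) * t := by
      rw [div_mul_eq_mul_div, le_div_iff₀ hp]
      linarith
    refine h10.trans (mul_le_mul_of_nonneg_right ?_ ht0)
    have h11 : 1 - 1 / ((bZ : ℝ) + 1) = bZ / (bZ + 1) := by field_simp; ring
    rw [h11, add_div]
    have h12 : ε / ((bZ : ℝ) + 1) ≤ ε := div_le_self hε.le (by linarith)
    linarith
  obtain ⟨n₁, h₁⟩ := key 0
  obtain ⟨n₂, h₂⟩ := key 1
  refine ⟨max n₁ n₂, fun n hn => ?_⟩
  rcases Nat.mod_two_eq_zero_or_one n with h | h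
  · exact h₁ n ((le_max_left _ _).trans hn) h
  · exact h₂ n ((le_max_right _ _).trans hn) h

end Pool.Agent.U226.RG
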