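import Pool.Agent.U226.RG.DFix
import Pool.Agent.Y133.Half.Index2

/-!
# Ratio laws for modules over the correspondences between the powers of a variety
-/

set_option linter.unusedSectionVars false
set_option autoImplicit false

open CategoryTheory AlgebraicGeometry Filter Topology

universe u v

namespace Pool.Agent.U226.RG

open Module
open Pool.Agent.H914 Pool.Agent.H914.VarClass Pool.Agent.H914.VarClass.Obj
  Pool.Agent.H914.WeilCohomology Pool.Agent.H281R3.HT
open Pool.Agent.Y129 (StableSystem Full numRank CC isCat_CC baseSys_stable finrank_baseSys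
  numRank_base nontrivial_base isPowers full_or_infinite exists_corr_eq)

variable {k : Type u} [Field k] {𝒱 : VarClass k} {ops : CycleOps 𝒱}
  {W : WeilCohomology.{u, v} ops} {X Y Z : 𝒱.Obj}

/-- The quotients `t n / β n` converge to an integer or to infinity. -/
def HasIndex (t β : ℕ → ℕ) : Prop :=
  (∃ N : ℕ, Tendsto (fun n => (t n : ℝ) / β n) atTop (𝓝 (N : ℝ))) ∨
    Tendsto (fun n => (t n : ℝ) / β n) atTop atTop

lemma HasIndex.add {t t' β : ℕ → ℕ} (h : HasIndex t β) (h' : HasIndex t' β) :
    HasIndex (fun n => t n + t' n) β := by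
  have e : ∀ n, ((t n + t' n : ℕ) : ℝ) / β n = (t n : ℝ) / β n + (t' n : ℝ) / β n := by
    intro n; push_cast; rw [add_div]
  rcases h with ⟨N, h⟩ | h
  · rcases h' with ⟨N', h'⟩ | h'
    · left
      refine ⟨N + N', ?_⟩
      simp only [e]
      push_cast
      exact h.add h'
    · right
      simp only [e]
      exact h.add_atTop h'
  · right
    simp only [e]
    refine tendsto_atTop_mono (fun n => le_add_of_nonneg_right ?_) h
    positivity

lemma HasIndex.zero (β : ℕ → ℕ) : HasIndex (fun _ => 0) β := by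
  left
  refine ⟨0, ?_⟩
  simp only [Nat.cast_zero, zero_div]
  exact tendsto_const_nhds

lemma HasIndex.sum {ι : Type*} (s : Finset ι) {t : ι → ℕ → ℕ} {β : ℕ → ℕ}
    (h : ∀ i ∈ s, HasIndex (t i) β) : HasIndex (fun n => ∑ i ∈ s, t i n) β := by
  classical
  induction s using Finset.induction_on with
  | empty => simpa using HasIndex.zero β
  | insert i s hi ih =>
    simp only [Finset.sum_insert hi]
    exact (h i (Finset.mem_insert_self _ _)).add
      (ih fun j hj => h j (Finset.mem_insert_of_mem hj))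

/-- **The ratio law** for stable systems on the powers of `X`, if numerical equivalence can be tested
with the trace form. -/
theorem full_law [Nontrivial (W.H X)] (hF : Full W X)
    {G : ∀ n, Submodule W.K (W.H (Pool.Agent.Y129.pw X n))} (hG : StableSystem W X G) :
    HasIndex (fun n => finrank W.K (G n)) (fun n => numRank W (Pool.Agent.Y129.pw X n)) := by
  have hcl : IsAlgClosed (baseW W (AlgebraicClosure W.K)).K :=
    (inferInstance : IsAlgClosed (AlgebraicClosure W.K))
  have hnt : Nontrivial ((baseW W (AlgebraicClosure W.K)).H X) := nontrivial_base _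
  have hP := isPowers (W := baseW W (AlgebraicClosure W.K)) hF ⟨0, ⟨Iso.refl X⟩⟩
  have h1 := hP.law (baseSys_stable (AlgebraicClosure W.K) hG)
  simp only [finrank_baseSys, numRank_base] at h1
  rcases h1 with ⟨N, -, h1⟩ | h1
  · exact Or.inl ⟨N, h1⟩
  · exact Or.inr h1

/-- The dimension of a space of linear maps in terms of the values at the elements of a basis. -/
lemma finrank_steps {K : Type*} [Field K] {U H : Type*} [AddCommGroup U] [Module K U]
    [FiniteDimensional K U] [AddCommGroup H] [Module K H] [FiniteDimensional K H] {r : ℕ}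
    (e : Fin r → U) (M : Submodule K (U →ₗ[K] H)) (i : ℕ) (hi : i ≤ r) :
    finrank K M = ∑ j : Fin i, finrank K
        ((M ⊓ ⨅ l : Fin j, LinearMap.ker (LinearMap.applyₗ (R := K) (M₂ := H)
          (e ⟨l, lt_of_lt_of_le (l.2.trans j.2) hi⟩))).map
            (LinearMap.applyₗ (R := K) (M₂ := H) (e ⟨j, lt_of_lt_of_le j.2 hi⟩))) +
      finrank K (M ⊓ ⨅ l : Fin i, LinearMap.ker (LinearMap.applyₗ (R := K) (M₂ := H)
          (e ⟨l, lt_of_lt_of_le l.2 hi⟩)) : Submodule K (U →ₗ[K] H)) := by
  induction i with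
  | zero =>
    rw [Finset.univ_eq_empty, Finset.sum_empty, zero_add, iInf_of_empty, inf_top_eq]
  | succ i ih =>
    rw [ih (by omega), Fin.sum_univ_castSucc, add_assoc]
    congr 1
    set A : Submodule K (U →ₗ[K] H) := M ⊓ ⨅ l : Fin i, LinearMap.ker
      (LinearMap.applyₗ (R := K) (M₂ := H) (e ⟨l, lt_of_lt_of_le l.2 (by omega)⟩)) with hA
    set f := LinearMap.applyₗ (R := K) (M₂ := H) (e ⟨i, by omega⟩) with hf
    have h1 := LinearMap.finrank_range_add_finrank_ker (f.domRestrict A)
    rw [LinearMap.range_domRestrict] at h1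
    have h2 : (LinearMap.ker (f.domRestrict A)).map A.subtype = A ⊓ LinearMap.ker f := by
      ext x
      constructor
      · rintro ⟨⟨c, hc⟩, hc', rfl⟩
        exact ⟨hc, hc'⟩
      · rintro ⟨hx, hx'⟩
        exact ⟨⟨x, hx⟩, hx', rfl⟩
    have h3 : finrank K (LinearMap.ker (f.domRestrict A)) =
        finrank K (A ⊓ LinearMap.ker f : Submodule K (U →ₗ[K] H)) := by
      rw [← h2]
      exact (Submodule.equivMapOfInjective _ (Submodule.subtype_injective _) _).finrank_eq
    rw [← h1, h3]
    have h4 : (M ⊓ ⨅ l : Fin (i + 1), LinearMap.ker (LinearMap.applyₗ (R := K) (M₂ := H)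
        (e ⟨l, lt_of_lt_of_le l.2 hi⟩))) = A ⊓ LinearMap.ker f := by
      ext x
      simp only [hA, hf, Submodule.mem_inf, Submodule.mem_iInf]
      constructor
      · rintro ⟨h5, h6⟩
        exact ⟨⟨h5, fun l => h6 l.castSucc⟩, h6 (Fin.last i)⟩
      · rintro ⟨⟨h5, h6⟩, h7⟩
        refine ⟨h5, fun l => ?_⟩
        refine Fin.lastCases ?_ (fun l => ?_) l
        · exact h7
        · exact h6 l
    rw [h4]
    rfl

/-- **The ratio law for modules**: spaces of linear maps from a fixed space to the cohomology of the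
powers of `X` which are stable under composition with algebraic correspondences. -/
theorem module_law [Nontrivial (W.H X)] (hF : Full W X) {U : Type v} [AddCommGroup U]
    [Module W.K U] [FiniteDimensional W.K U]
    {M : ∀ n, Submodule W.K (U →ₗ[W.K] W.H (Pool.Agent.Y129.pw X n))}
    (hM : ∀ m n, ∀ f ∈ CC W (Pool.Agent.Y129.pw X m) (Pool.Agent.Y129.pw X n), ∀ g ∈ M m,
      f ∘ₗ g ∈ M n) :
    HasIndex (fun n => finrank W.K (M n)) (fun n => numRank W (Pool.Agent.Y129.pw X n)) := by
  set e := Module.finBasis W.K U with he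
  have h0 : ∀ n, (M n ⊓ ⨅ l : Fin (finrank W.K U), LinearMap.ker (LinearMap.applyₗ (R := W.K)
      (M₂ := W.H (Pool.Agent.Y129.pw X n)) (e ⟨l, lt_of_lt_of_le l.2 le_rfl⟩)) :
        Submodule W.K (U →ₗ[W.K] W.H (Pool.Agent.Y129.pw X n))) = ⊥ := by
    intro n
    rw [eq_bot_iff]
    rintro f ⟨-, hf⟩
    rw [Submodule.mem_bot]
    apply e.ext
    intro i
    rw [SetLike.mem_coe, Submodule.mem_iInf] at hf
    exact hf i
  have h1 : ∀ n, finrank W.K (M n) = ∑ j : Fin (finrank W.K U), finrank W.K
      ((M n ⊓ ⨅ l : Fin j, LinearMap.ker (LinearMap.applyₗ (R := W.K)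
        (M₂ := W.H (Pool.Agent.Y129.pw X n))
          (e ⟨l, lt_of_lt_of_le (l.2.trans j.2) le_rfl⟩))).map
            (LinearMap.applyₗ (R := W.K) (M₂ := W.H (Pool.Agent.Y129.pw X n))
              (e ⟨j, lt_of_lt_of_le j.2 le_rfl⟩))) := by
    intro n
    rw [finrank_steps (fun i => e i) (M n) (finrank W.K U) le_rfl, h0 n, finrank_bot, add_zero]
  simp only [h1]
  apply HasIndex.sum
  intro j _
  refine full_law hF ?_
  rintro m n f hf _ ⟨g, ⟨hg, hg'⟩, rfl⟩
  refine ⟨f ∘ₗ g, ⟨hM m n f hf g hg, ?_⟩, rfl⟩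
  rw [SetLike.mem_coe, Submodule.mem_iInf] at hg' ⊢
  intro l
  have h2 : g (e ⟨l, lt_of_lt_of_le (l.2.trans j.2) le_rfl⟩) = 0 := hg' l
  rw [LinearMap.mem_ker]
  change f (g (e _)) = 0
  rw [h2, map_zero]

end Pool.Agent.U226.RG
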