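import Pool.Agent.U226.RG.RatFin
import Pool.Agent.Y133.Half.PairPow

/-!
# The part of the classes cut out by an idempotent
-/

set_option linter.unusedSectionVars false
set_option autoImplicit false

open CategoryTheory AlgebraicGeometry Filter Topology

universe u v

namespace Pool.Agent.U226.RG

open Module Polynomial
open Pool.Agent.H914 Pool.Agent.H914.VarClass Pool.Agent.H914.VarClass.Obj
  Pool.Agent.H914.WeilCohomology Pool.Agent.H281R3.HT Pool.Agent.Y133.Half.Sys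
open Pool.Agent.Y133.Half (Sys pw cycRank algDim algDim_eq mem_algNum numDim_eq_cycRank algSys
  numTrivial dimOf numTrivial_eq pwAdd finrank_pw prodComm prodCongr xp_eq_zero_left xp
  homEqNum_iff rk rk_comp_le tr_xp Ev exists_fit finrank_extOp ratio_dichotomy swap_swap)

variable {k : Type u} [Field k] {𝒱 : VarClass k} {ops : CycleOps 𝒱}
  {W : WeilCohomology.{u, v} ops} {X Y Z P Q N : 𝒱.Obj} {T : Sys W}

/-- Composition with `g`. -/
noncomputable def post (N : 𝒱.Obj) (g : W.H P →ₗ[W.K] W.H Q) :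
    (W.H N →ₗ[W.K] W.H P) →ₗ[W.K] (W.H N →ₗ[W.K] W.H Q) where
  toFun h := g ∘ₗ h
  map_add' h h' := LinearMap.comp_add _ _ _
  map_smul' r h := LinearMap.comp_smul _ _ _

lemma post_apply (g : W.H P →ₗ[W.K] W.H Q) (h : W.H N →ₗ[W.K] W.H P) : post N g h = g ∘ₗ h := rfl

/-- The dimension of the part of the operators from `N` to `P` cut out by `g`. -/
noncomputable def dd (T : Sys W) (g : W.H P →ₗ[W.K] W.H P) (N : 𝒱.Obj) : ℕ :=
  finrank W.K ((T.Op N P).map (post N g))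

lemma rk_add_ker {K A B : Type*} [Field K] [AddCommGroup A] [Module K A] [FiniteDimensional K A]
    [AddCommGroup B] [Module K B] (β : A →ₗ[K] B →ₗ[K] K) :
    rk β + finrank K (LinearMap.ker β) = finrank K A :=
  LinearMap.finrank_range_add_finrank_ker β

lemma dd_eq_r (hT : Nondeg T (N.prod P)) {g : Module.End W.K (W.H P)} (hg : g ∈ T.Op P P) :
    T.r P g N = dd T g N := by
  rw [← T.rk_BO_r (Op.ev hg)]
  have h1 := rk_add_ker (A := T.Op N P) (B := T.Op P N) (T.BO P N g LinearMap.id)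
  have h3 : ∀ w : T.Op N P, T.BO P N g LinearMap.id w = 0 ↔
      post N g (w : W.H N →ₗ[W.K] W.H P) = 0 := by
    intro w
    rw [post_apply]
    constructor
    · intro h
      have h4 : g ∘ₗ (w : W.H N →ₗ[W.K] W.H P) ∈ T.Op N P := Op.comp hg w.2
      obtain ⟨c, hc, hc'⟩ := mem_Op.1 h4
      have h6 : c = 0 := by
        refine hT c hc fun d hd => ?_
        have h5 : T.BO P N g LinearMap.id w ⟨_, Op.corr (T.map (swap P N) hd)⟩ = 0 := by
          rw [h]; rfl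
        rw [BO_apply] at h5
        have h7 : g ∘ₗ (w : W.H N →ₗ[W.K] W.H P) ∘ₗ LinearMap.id ∘ₗ
            W.corr (W.map (swap P N) d) = W.corr c ∘ₗ W.corr (W.map (swap P N) d) := by
          rw [hc']
          rfl
        rw [h7, Pool.Agent.Y133.Half.trace_corr_corr, swap_swap] at h5
        exact h5
      rw [← hc', h6, corr_zero]
    · intro h
      apply LinearMap.ext
      intro v
      rw [BO_apply]
      have h4 : g ∘ₗ (w : W.H N →ₗ[W.K] W.H P) ∘ₗ LinearMap.id ∘ₗ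
          (v : W.H P →ₗ[W.K] W.H N) = 0 := by
        change (g ∘ₗ (w : W.H N →ₗ[W.K] W.H P)) ∘ₗ (LinearMap.id ∘ₗ
          (v : W.H P →ₗ[W.K] W.H N)) = 0
        rw [h, LinearMap.zero_comp]
      rw [h4, LinearMap.comp_zero, map_zero]
      rfl
  have h2 := finrank_map_add (post N g) (T.Op N P)
    ((LinearMap.ker (T.BO P N g LinearMap.id)).map (T.Op N P).subtype)
    (by rintro _ ⟨w, -, rfl⟩; exact w.2) (fun x hx => by
      constructor
      · intro h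
        exact ⟨⟨x, hx⟩, (h3 ⟨x, hx⟩).2 h, rfl⟩
      · rintro ⟨w, hw, rfl⟩
        exact (h3 w).1 hw)
  have h4 : finrank W.K ((LinearMap.ker (T.BO P N g LinearMap.id)).map (T.Op N P).subtype) =
      finrank W.K (LinearMap.ker (T.BO P N g LinearMap.id)) :=
    (Submodule.equivMapOfInjective _ (Submodule.subtype_injective _) _).finrank_eq.symm
  rw [h4] at h2
  rw [dd]
  omega

lemma dd_one : dd T (LinearMap.id : W.H P →ₗ[W.K] W.H P) N = finrank W.K (T.C (N.prod P)) := by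
  have h : (T.Op N P).map (post N (LinearMap.id : W.H P →ₗ[W.K] W.H P)) = T.Op N P :=
    Submodule.map_id _
  rw [dd, h, finrank_Op]

/-- The dimension is additive for orthogonal idempotents. -/
lemma dd_add {f g : Module.End W.K (W.H P)} (hf : f ∈ T.Op P P) (hg : g ∈ T.Op P P)
    (hff : f ∘ₗ f = f) (hgg : g ∘ₗ g = g) (hfg : f ∘ₗ g = 0) (hgf : g ∘ₗ f = 0) (N : 𝒱.Obj) :
    dd T (f + g) N = dd T f N + dd T g N := by
  set A := (T.Op N P).map (post N f) with hA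
  set B := (T.Op N P).map (post N g) with hB
  have h1 : A ⊓ B = ⊥ := by
    rw [eq_bot_iff]
    rintro _ ⟨⟨u, hu, rfl⟩, ⟨v, hv, hv'⟩⟩
    rw [Submodule.mem_bot]
    rw [post_apply, post_apply] at hv'
    have h2 : f ∘ₗ (f ∘ₗ u) = f ∘ₗ u := by rw [← LinearMap.comp_assoc, hff]
    rw [post_apply, ← h2, ← hv', ← LinearMap.comp_assoc, hfg, LinearMap.zero_comp]
  have h2 : A ⊔ B = (T.Op N P).map (post N (f + g)) := by
    apply le_antisymm
    · apply sup_le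
      · rintro _ ⟨u, hu, rfl⟩
        refine ⟨f ∘ₗ u, Op.comp hf hu, ?_⟩
        rw [post_apply, post_apply, LinearMap.add_comp, ← LinearMap.comp_assoc,
          ← LinearMap.comp_assoc, hff, hgf, LinearMap.zero_comp, add_zero]
      · rintro _ ⟨u, hu, rfl⟩
        refine ⟨g ∘ₗ u, Op.comp hg hu, ?_⟩
        rw [post_apply, post_apply, LinearMap.add_comp, ← LinearMap.comp_assoc,
          ← LinearMap.comp_assoc, hgg, hfg, LinearMap.zero_comp, zero_add]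
    · rintro _ ⟨u, hu, rfl⟩
      rw [post_apply, LinearMap.add_comp]
      exact Submodule.add_mem_sup ⟨u, hu, rfl⟩ ⟨u, hu, rfl⟩
  have h3 := Submodule.finrank_sup_add_finrank_inf_eq A B
  rw [h1, finrank_bot, add_zero, h2] at h3
  exact h3

lemma dd_compl {g : Module.End W.K (W.H P)} (hg : g ∈ T.Op P P) (hgg : g ∘ₗ g = g) (N : 𝒱.Obj) :
    dd T g N + dd T (1 - g) N = finrank W.K (T.C (N.prod P)) := by
  have hG : g * g = g := hgg
  have h1 : (1 - g) ∘ₗ (1 - g) = 1 - g := (finrank_compl hgg).1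
  have h2 := dd_add (g := (1 - g : Module.End W.K (W.H P))) hg (Submodule.sub_mem _ Op.id hg) hgg h1
    (by change g * (1 - g) = 0; rw [mul_sub, mul_one, hG, sub_self])
    (by change (1 - g) * g = 0; rw [sub_mul, one_mul, hG, sub_self]) N
  rw [← h2, add_sub_cancel]
  exact dd_one

/-- Transport of an idempotent. -/
lemma dd_le_of {g : W.H P →ₗ[W.K] W.H Z} {ρ : W.H Z →ₗ[W.K] W.H P} (hg : g ∈ T.Op P Z)
    (hρ : ρ ∈ T.Op Z P) {π : Module.End W.K (W.H Z)} (hπ : π ∈ T.Op Z Z) (hππ : π ∘ₗ π = π)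
    (he : g ∘ₗ ρ = π) (N : 𝒱.Obj) :
    (ρ ∘ₗ π ∘ₗ g) ∈ T.Op P P ∧ (ρ ∘ₗ π ∘ₗ g) ∘ₗ (ρ ∘ₗ π ∘ₗ g) = ρ ∘ₗ π ∘ₗ g ∧
      finrank W.K (LinearMap.range π) ≤ finrank W.K (LinearMap.range (ρ ∘ₗ π ∘ₗ g)) ∧
      dd T (ρ ∘ₗ π ∘ₗ g) N ≤ dd T π N := by
  have hπ3 : π ∘ₗ π ∘ₗ π = π := by rw [hππ, hππ]
  have he1 : g ∘ₗ (ρ ∘ₗ π ∘ₗ g) ∘ₗ ρ = π := by
    calc g ∘ₗ (ρ ∘ₗ π ∘ₗ g) ∘ₗ ρ = (g ∘ₗ ρ) ∘ₗ π ∘ₗ (g ∘ₗ ρ) := by
          simp only [LinearMap.comp_assoc]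
      _ = π := by rw [he, hπ3]
  refine ⟨Op.comp hρ (Op.comp hπ hg), ?_, ?_, ?_⟩
  · calc (ρ ∘ₗ π ∘ₗ g) ∘ₗ (ρ ∘ₗ π ∘ₗ g) = ρ ∘ₗ π ∘ₗ (g ∘ₗ ρ) ∘ₗ π ∘ₗ g := by
          simp only [LinearMap.comp_assoc]
      _ = ρ ∘ₗ (π ∘ₗ π ∘ₗ π) ∘ₗ g := by rw [he]; simp only [LinearMap.comp_assoc]
      _ = ρ ∘ₗ π ∘ₗ g := by rw [hπ3]
  · have h1 : finrank W.K (LinearMap.range (g ∘ₗ (ρ ∘ₗ π ∘ₗ g) ∘ₗ ρ)) ≤
        finrank W.K (LinearMap.range (ρ ∘ₗ π ∘ₗ g)) := by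
      rw [LinearMap.range_comp]
      refine (Submodule.finrank_map_le _ _).trans ?_
      apply Submodule.finrank_mono
      exact LinearMap.range_comp_le_range _ _
    rwa [he1] at h1
  · -- the map `k ↦ g k`
    have h1 : ∀ x ∈ (T.Op N P).map (post N (ρ ∘ₗ π ∘ₗ g)), post N g x = 0 → x = 0 := by
      rintro _ ⟨u, hu, rfl⟩ h
      rw [post_apply, post_apply] at h
      have h2 : (ρ ∘ₗ π ∘ₗ g) ∘ₗ u = ρ ∘ₗ π ∘ₗ (g ∘ₗ ((ρ ∘ₗ π ∘ₗ g) ∘ₗ u)) := by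
        calc (ρ ∘ₗ π ∘ₗ g) ∘ₗ u = ρ ∘ₗ (π ∘ₗ π ∘ₗ π) ∘ₗ g ∘ₗ u := by
              rw [hπ3]; simp only [LinearMap.comp_assoc]
          _ = ρ ∘ₗ π ∘ₗ (g ∘ₗ ρ) ∘ₗ π ∘ₗ g ∘ₗ u := by
              rw [he]; simp only [LinearMap.comp_assoc]
          _ = _ := by simp only [LinearMap.comp_assoc]
      rw [post_apply, h2, h, LinearMap.comp_zero, LinearMap.comp_zero]
    have h2 : ((T.Op N P).map (post N (ρ ∘ₗ π ∘ₗ g))).map (post N g) ≤
        (T.Op N Z).map (post N π) := by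
      rintro _ ⟨_, ⟨u, hu, rfl⟩, rfl⟩
      refine ⟨g ∘ₗ ((ρ ∘ₗ π ∘ₗ g) ∘ₗ u), Op.comp hg (Op.comp (Op.comp hρ (Op.comp hπ hg)) hu), ?_⟩
      rw [post_apply, post_apply, post_apply]
      calc π ∘ₗ g ∘ₗ (ρ ∘ₗ π ∘ₗ g) ∘ₗ u = π ∘ₗ (g ∘ₗ ρ) ∘ₗ π ∘ₗ g ∘ₗ u := by
            simp only [LinearMap.comp_assoc]
        _ = (π ∘ₗ π ∘ₗ π) ∘ₗ g ∘ₗ u := by rw [he]; simp only [LinearMap.comp_assoc]
        _ = (π ∘ₗ π) ∘ₗ g ∘ₗ u := by rw [hπ3, hππ]
        _ = (g ∘ₗ ρ) ∘ₗ π ∘ₗ g ∘ₗ u := by rw [he]; simp only [LinearMap.comp_assoc]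
        _ = _ := by simp only [LinearMap.comp_assoc]
    have h3 : finrank W.K ((T.Op N P).map (post N (ρ ∘ₗ π ∘ₗ g))) =
        finrank W.K (((T.Op N P).map (post N (ρ ∘ₗ π ∘ₗ g))).map (post N g)) := by
      have h4 := finrank_map_add (post N g) ((T.Op N P).map (post N (ρ ∘ₗ π ∘ₗ g))) ⊥ bot_le
        (fun x hx => ⟨fun h => (Submodule.mem_bot _).2 (h1 x hx h), fun h => by
          rw [(Submodule.mem_bot _).1 h, map_zero]⟩)
      rw [finrank_bot, add_zero] at h4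
      exact h4.symm
    rw [dd, dd, h3]
    exact Submodule.finrank_mono h2

/-- The bound by the rank. -/
lemma dd_le_rank (hT : ∀ V, Nondeg T V) {f : Module.End W.K (W.H Z)} (hf : f ∈ T.Op Z Z)
    (hff : f ∘ₗ f = f) (P₀ Y : 𝒱.Obj) (θ : P₀.prod (Y.prod Y) ≅ N) :
    dd T f N ≤ finrank W.K (LinearMap.range f) * finrank W.K (W.H P₀) * T.a (Y.prod Y) := by
  rw [← dd_eq_r (hT _) hf, ← T.r_iso f θ, ← T.r_assoc f]
  have h1 : (1 : Module.End W.K (W.H P₀)) ∘ₗ 1 = 1 := rfl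
  have h2 : extOp W f (1 : Module.End W.K (W.H P₀)) ∘ₗ extOp W f 1 = extOp W f 1 := by
    have := extOp_mul (W := W) f f (1 : Module.End W.K (W.H P₀)) 1
    change extOp W f 1 * extOp W f 1 = _
    rw [this, mul_one]
    change extOp W (f ∘ₗ f) 1 = _
    rw [hff]
  have h3 := T.r_le_rank (g := extOp W f (1 : Module.End W.K (W.H P₀))) (Op.ext hf Op.id) h2 Y
  rw [finrank_extOp hff h1, rank_one] at h3
  exact h3

end Pool.Agent.U226.RG
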