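import Pool.Agent.U226.RG.Mod

/-!
# The rational index law for the products of the powers of a variety with a fixed variety
-/

set_option linter.unusedSectionVars false
set_option autoImplicit false

open CategoryTheory AlgebraicGeometry Filter Topology

open scoped ENNReal

universe u v

namespace Pool.Agent.U226.RG

open Module
open Pool.Agent.H914 Pool.Agent.H914.VarClass Pool.Agent.H914.VarClass.Obj
  Pool.Agent.H914.WeilCohomology Pool.Agent.H281R3.HT Pool.Agent.Y133.Half.Sys
open Pool.Agent.Y129 (StableSystem Full numRank CC isCat_CC full_or_infinite exists_corr_eq)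
open Pool.Agent.Y133.Half (Sys pw cycRank algDim algDim_eq mem_algNum numDim_eq_cycRank algSys
  numTrivial dimOf numTrivial_eq pwAdd finrank_pw prodComm prodCongr xp_eq_zero_left xp pwIso129
  cycRank_iso homEqNum_iff homEqNum_iso corrL rk rk_comp_le tr_xp)

variable {k : Type u} [Field k] {𝒱 : VarClass k} {ops : CycleOps 𝒱}
  {W : WeilCohomology.{u, v} ops} {X Y Z : 𝒱.Obj}

lemma finrank_map_add {K V V' : Type*} [Field K] [AddCommGroup V] [Module K V]
    [FiniteDimensional K V] [AddCommGroup V'] [Module K V'] (f : V →ₗ[K] V')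
    (O N : Submodule K V) (hN : N ≤ O) (h : ∀ x ∈ O, f x = 0 ↔ x ∈ N) :
    finrank K (O.map f) + finrank K N = finrank K O := by
  have h3 := LinearMap.finrank_range_add_finrank_ker (f.domRestrict O)
  rw [LinearMap.range_domRestrict] at h3
  have h4 : (LinearMap.ker (f.domRestrict O)).map O.subtype = N := by
    ext x
    constructor
    · rintro ⟨⟨c, hc⟩, hc', rfl⟩
      exact (h c hc).1 hc'
    · intro hx
      exact ⟨⟨x, hN hx⟩, (h x (hN hx)).2 hx, rfl⟩
  have h5 : finrank K (LinearMap.ker (f.domRestrict O)) = finrank K N := by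
    rw [← h4]
    exact (Submodule.equivMapOfInjective _ (Submodule.subtype_injective _) _).finrank_eq
  rw [h5] at h3
  exact h3

lemma numRank_eq (W : WeilCohomology.{u, v} ops) (X : 𝒱.Obj) (n : ℕ) :
    numRank W (Pool.Agent.Y129.pw X n) = cycRank ops (pw X n) := by
  rw [Pool.Agent.Y129.numRank_eq_sum]
  exact cycRank_iso W (pwIso129 X n)

/-- `X^n × Z` in both conventions. -/
noncomputable def isoZ (X Z : 𝒱.Obj) (n : ℕ) :
    Z.prod (Pool.Agent.Y129.pw X n) ≅ (pw X n).prod Z :=
  prodComm Z (Pool.Agent.Y129.pw X n) ≪≫ prodCongr (pwIso129 X n) (Iso.refl Z)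

/-- If `D` holds for all powers of `X`, numerical equivalence can be tested with the trace form. -/
lemma full_of_num [Nontrivial (W.H X)] {z : W.H X} (hz : z ∈ algSpan W X) (hz1 : W.tr X z = 1)
    (hD : ∀ n, (algSys W).Num (pw X n) = ⊥) : Full W X := by
  rcases full_or_infinite hz hz1 with h | h
  · exact h
  exfalso
  have h1 := h (fun n => algSpan W (Pool.Agent.Y129.pw X n)) fun _ => le_rfl
  have h2 : ∀ n, (finrank W.K (algSpan W (Pool.Agent.Y129.pw X n)) : ℝ) /
      numRank W (Pool.Agent.Y129.pw X n) ≤ 1 := by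
    intro n
    have h3 : finrank W.K (algSpan W (Pool.Agent.Y129.pw X n)) =
        numRank W (Pool.Agent.Y129.pw X n) := by
      rw [numRank_eq, ← numDim_eq_cycRank W]
      have h4 := (algSys W).a_add_num (pw X n)
      rw [hD n, finrank_bot, add_zero] at h4
      rw [h4]
      exact (algSys W).finrank_C_iso (pwIso129 X n)
    rw [h3]
    exact div_self_le_one _
  have h3 := (tendsto_atTop.1 h1 2).exists
  obtain ⟨n, hn⟩ := h3
  linarith [h2 n]

/-- The ratio law for the classes of `T` on `X^n × Z`. -/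
theorem index_C [Nontrivial (W.H X)] (hF : Full W X) (T : Sys W)
    (hT : ∀ Z, algSpan W Z ≤ T.C Z) (Z : 𝒱.Obj) :
    HasIndex (fun n => finrank W.K (T.C ((pw X n).prod Z))) (fun n => cycRank ops (pw X n)) := by
  have h1 := module_law hF (U := W.H Z) (M := fun n => T.Op Z (Pool.Agent.Y129.pw X n)) (by
    intro m n f hf g hg
    obtain ⟨c, hc, rfl⟩ := exists_corr_eq hf
    exact Op.comp (S := T) (Op.corr (hT _ hc)) hg)
  have h2 : ∀ n, finrank W.K (T.Op Z (Pool.Agent.Y129.pw X n)) =
      finrank W.K (T.C ((pw X n).prod Z)) := by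
    intro n
    rw [finrank_Op]
    exact T.finrank_C_iso (isoZ X Z n)
  simp only [h2, numRank_eq] at h1
  exact h1

/-- The subspace of `H(Z)` spanned by the images of the algebraic correspondences from the powers
of `X`. -/
noncomputable def part (W : WeilCohomology.{u, v} ops) (X Z : 𝒱.Obj) : Submodule W.K (W.H Z) :=
  ⨆ m, ⨆ g : (algSys W).Op (Pool.Agent.Y129.pw X m) Z,
    LinearMap.range (g : W.H (Pool.Agent.Y129.pw X m) →ₗ[W.K] W.H Z)

lemma mem_part {m : ℕ} {g : W.H (Pool.Agent.Y129.pw X m) →ₗ[W.K] W.H Z}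
    (hg : g ∈ (algSys W).Op (Pool.Agent.Y129.pw X m) Z) (a : W.H (Pool.Agent.Y129.pw X m)) :
    g a ∈ part W X Z :=
  Submodule.mem_iSup_of_mem m (Submodule.mem_iSup_of_mem ⟨g, hg⟩ ⟨a, rfl⟩)

lemma num_pw129 (hD : ∀ n, (algSys W).Num (pw X n) = ⊥) {V : 𝒱.Obj} {n : ℕ} (e : V ≅ pw X n) :
    (algSys W).Num V = ⊥ := by
  rw [eq_bot_iff]
  intro c hc
  have h1 : W.map e.inv c ∈ (algSys W).Num (pw X n) := Num.map _ hc
  rw [hD n, Submodule.mem_bot] at h1
  rw [Submodule.mem_bot]
  apply Pool.Agent.Y133.Half.map_inj_of_iso e.symm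
  rw [map_zero]
  exact h1

/-- Numerically trivial operators from `Z` to a power of `X` are those which vanish on `part`. -/
lemma nop_iff (hD : ∀ n, (algSys W).Num (pw X n) = ⊥) {n : ℕ}
    {f : W.H Z →ₗ[W.K] W.H (Pool.Agent.Y129.pw X n)}
    (hf : f ∈ (algSys W).Op Z (Pool.Agent.Y129.pw X n)) :
    f ∈ (algSys W).NOp Z (Pool.Agent.Y129.pw X n) ↔ ∀ x ∈ part W X Z, f x = 0 := by
  constructor
  · intro h x hx
    have h1 : part W X Z ≤ LinearMap.ker f := by
      apply iSup_le
      intro m
      apply iSup_le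
      rintro ⟨g, hg⟩
      rintro _ ⟨a, rfl⟩
      have h2 : f ∘ₗ g ∈ (algSys W).NOp (Pool.Agent.Y129.pw X m) (Pool.Agent.Y129.pw X n) :=
        NOp.comp_right h hg
      obtain ⟨c, hc, hc'⟩ := mem_NOp.1 h2
      have h3 : (algSys W).Num ((Pool.Agent.Y129.pw X m).prod (Pool.Agent.Y129.pw X n)) = ⊥ :=
        num_pw129 hD (prodCongr (pwIso129 X m) (pwIso129 X n) ≪≫ pwAdd X m n)
      rw [h3, Submodule.mem_bot] at hc
      rw [hc, corr_zero] at hc'
      rw [LinearMap.mem_ker]
      exact congrArg (fun F => F a) hc'.symm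
    exact h1 hx
  · intro h
    obtain ⟨c, hc, rfl⟩ := mem_Op.1 hf
    refine NOp.corr ⟨hc, fun d hd => ?_⟩
    have hd' : W.map (swap (Pool.Agent.Y129.pw X n) Z) d ∈
        (algSys W).C ((Pool.Agent.Y129.pw X n).prod Z) := (algSys W).map _ hd
    have h1 := Pool.Agent.Y133.Half.trace_corr_corr (W := W) c
      (W.map (swap (Pool.Agent.Y129.pw X n) Z) d)
    rw [Pool.Agent.Y133.Half.swap_swap] at h1
    rw [← h1]
    have h2 : W.corr c ∘ₗ W.corr (W.map (swap (Pool.Agent.Y129.pw X n) Z) d) = 0 := by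
      apply LinearMap.ext
      intro a
      exact h _ (mem_part (Op.corr hd') a)
    rw [h2, LinearMap.comp_zero, map_zero]

/-- The ratio law for the rank of the intersection form on `X^n × Z`. -/
theorem index_a [Nontrivial (W.H X)] (hF : Full W X) (hD : ∀ n, (algSys W).Num (pw X n) = ⊥)
    (Z : 𝒱.Obj) :
    HasIndex (fun n => cycRank ops ((pw X n).prod Z)) (fun n => cycRank ops (pw X n)) := by
  have h1 := module_law hF (U := part W X Z)
    (M := fun n => ((algSys W).Op Z (Pool.Agent.Y129.pw X n)).map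
      (LinearMap.lcomp W.K (W.H (Pool.Agent.Y129.pw X n)) (part W X Z).subtype)) (by
    rintro m n f hf _ ⟨g, hg, rfl⟩
    obtain ⟨c, hc, rfl⟩ := exists_corr_eq hf
    exact ⟨_, Op.comp (S := algSys W) (Op.corr hc) hg, rfl⟩)
  have h2 : ∀ n, finrank W.K (((algSys W).Op Z (Pool.Agent.Y129.pw X n)).map
      (LinearMap.lcomp W.K (W.H (Pool.Agent.Y129.pw X n)) (part W X Z).subtype)) =
      cycRank ops ((pw X n).prod Z) := by
    intro n
    have h3 := finrank_map_add (LinearMap.lcomp W.K (W.H (Pool.Agent.Y129.pw X n))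
      (part W X Z).subtype) ((algSys W).Op Z (Pool.Agent.Y129.pw X n))
      ((algSys W).NOp Z (Pool.Agent.Y129.pw X n)) (fun x hx => NOp.op hx) (fun x hx => by
        rw [nop_iff hD hx]
        constructor
        · intro h y hy
          exact congrArg (fun F => F (⟨y, hy⟩ : part W X Z)) h
        · intro h
          apply LinearMap.ext
          rintro ⟨y, hy⟩
          exact h y hy)
    have h6 : finrank W.K ((algSys W).NOp Z (Pool.Agent.Y129.pw X n)) =
        finrank W.K ((algSys W).Num (Z.prod (Pool.Agent.Y129.pw X n))) :=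
      (Submodule.equivMapOfInjective _ corrL_injective _).finrank_eq.symm
    have h7 : finrank W.K ((algSys W).Op Z (Pool.Agent.Y129.pw X n)) =
        finrank W.K ((algSys W).C (Z.prod (Pool.Agent.Y129.pw X n))) := finrank_Op _ _ _
    have h8 := (algSys W).a_add_num (Z.prod (Pool.Agent.Y129.pw X n))
    have h9 : (algSys W).a (Z.prod (Pool.Agent.Y129.pw X n)) = cycRank ops ((pw X n).prod Z) := by
      rw [← numDim_eq_cycRank W]
      exact (algSys W).a_iso (isoZ X Z n)
    rw [h6, h7, ← h8, h9] at h3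
    omega
  simp only [h2, numRank_eq] at h1
  exact h1

end Pool.Agent.U226.RG
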