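import Pool.Agent.U226.RG.Step
import Pool.Agent.Y133.Half.Main2
import Pool.Agent.H914R2.GBasic

/-!
# The gap for the products of the powers of a variety with a fixed variety
-/

set_option linter.unusedSectionVars false
set_option autoImplicit false

open CategoryTheory AlgebraicGeometry

universe u v

namespace Pool.Agent.U226.RG

open Module
open Pool.Agent.H914 Pool.Agent.H914.VarClass Pool.Agent.H914.VarClass.Obj
  Pool.Agent.H914.WeilCohomology Pool.Agent.Y133.Half Pool.Agent.Y133.Half.Sys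

variable {k : Type u} [Field k] {𝒱 : VarClass k} {ops : CycleOps 𝒱}
  {W : WeilCohomology.{u, v} ops} {X Y Z P Q N P₀ : 𝒱.Obj}

lemma corrL_injective : Function.Injective (corrL W X Y) := by
  rw [← LinearMap.ker_eq_bot, LinearMap.ker_eq_bot']
  intro c hc
  exact Pool.Agent.H914.corr_inj hc

lemma finrank_Op (S : Sys W) (X Y : 𝒱.Obj) :
    finrank W.K (S.Op X Y) = finrank W.K (S.C (X.prod Y)) :=
  (Submodule.equivMapOfInjective _ corrL_injective _).finrank_eq.symm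

variable {S T : Sys W}

/-- **The relative step.** -/
theorem rel_key (hST : ∀ X, S.C X ≤ T.C X)
    (hlt : finrank W.K (S.C (P.prod Z)) < finrank W.K (T.C (P.prod Z))) (N : 𝒱.Obj) :
    ∃ g ∈ S.Op P P, g ∘ₗ g = g ∧ g ≠ 0 ∧
      finrank W.K (S.C (N.prod Z)) + S.r P g N ≤ finrank W.K (T.C (N.prod Z)) := by
  have hle : ∀ A B : 𝒱.Obj, S.Op A B ≤ T.Op A B := fun A B => Submodule.map_mono (hST _)
  have hfin : ∀ (R : Sys W) (A : 𝒱.Obj), finrank W.K (R.Op Z A) = finrank W.K (R.C (A.prod Z)) := by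
    intro R A
    rw [finrank_Op, R.finrank_C_iso (prodComm Z A)]
  have hlt' : S.Op Z P < T.Op Z P := by
    refine lt_of_le_of_ne (hle _ _) fun heq => ?_
    rw [← hfin S P, ← hfin T P, heq] at hlt
    exact lt_irrefl _ hlt
  let X : Fin 2 → 𝒱.Obj := ![P, N]
  obtain ⟨g, hg, hgg, h0, hs⟩ := step_gen (S.cat X) (U := W.H Z) 0 1
    (M' := S.Op Z P) (M := T.Op Z P) (N' := S.Op Z N) (N := T.Op Z N)
    (fun a ha m hm => Op.comp (S := S) (X := Z) (Y := P) (Z := P) ha hm)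
    (fun a ha m hm => Op.comp (S := T) (X := Z) (Y := P) (Z := P) (hle _ _ ha) hm)
    (fun v hv m hm => Op.comp (S := T) (X := Z) (Y := P) (Z := N) (hle _ _ hv) hm)
    (fun u hu n hn => Op.comp (S := S) (X := Z) (Y := N) (Z := P) hu hn)
    hlt' (hle _ _)
  refine ⟨g, hg, hgg, h0, ?_⟩
  have h1 : S.r P g N = rk (A := (S.cat X).S 0 1) (B := (S.cat X).S 1 0)
      ((S.cat X).B 0 1 g LinearMap.id) :=
    (S.rk_BO_r (P := P) (Z := N) (g := g) (Op.ev (S := S) hg)).symm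
  rw [h1, ← hfin S N, ← hfin T N]
  exact hs

lemma a_eq_of (h : S.C Z = T.C Z) : S.a Z = T.a Z := by
  have h1 := S.a_add_num Z
  have h2 := T.a_add_num Z
  have h3 : S.Num Z = T.Num Z := by
    ext x
    change (x ∈ S.C Z ∧ ∀ d ∈ S.C Z, _) ↔ (x ∈ T.C Z ∧ ∀ d ∈ T.C Z, _)
    rw [h]
  rw [h, h3] at h1
  omega

lemma C_eq_iso (hST : ∀ X, S.C X ≤ T.C X) (θ : P ≅ Q) (h : S.C Q = T.C Q) : S.C P = T.C P := by
  apply Submodule.eq_of_le_of_finrank_eq (hST P)
  rw [S.finrank_C_iso θ, T.finrank_C_iso θ, h]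

lemma a_eq_finrank (hT : Nondeg T Z) : T.a Z = finrank W.K (T.C Z) := by
  have h1 := T.a_add_num Z
  have h2 : T.Num Z = ⊥ := by
    rw [eq_bot_iff]
    rintro x ⟨hx, hx'⟩
    exact hT x hx hx'
  rw [h2, finrank_bot, add_zero] at h1
  exact h1

/-- Passage to the other parity. -/
lemma lt_succ_rel (hST : ∀ X, S.C X ≤ T.C X) {l : W.H X} (hl : l ∈ S.C X)
    (hl1 : W.tr X l = 1) {m : ℕ}
    (h : finrank W.K (S.C ((pw X m).prod Z)) < finrank W.K (T.C ((pw X m).prod Z))) :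
    finrank W.K (S.C ((pw X (m + 1)).prod Z)) < finrank W.K (T.C ((pw X (m + 1)).prod Z)) := by
  have hlt : S.C ((pw X m).prod Z) < T.C ((pw X m).prod Z) := by
    refine lt_of_le_of_ne (hST _) fun heq => ?_
    rw [heq] at h
    exact lt_irrefl _ h
  -- work on `(X^m × Z) × X`
  have e : ((pw X m).prod Z).prod X ≅ (pw X (m + 1)).prod Z :=
    (θ₃ (pw X m) Z X) ≪≫ prodCongr (Iso.refl _) (prodComm Z X) ≪≫ (θ₃ (pw X m) X Z).symm
  rw [← S.finrank_C_iso e, ← T.finrank_C_iso e]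
  apply Submodule.finrank_lt_finrank_of_lt
  refine lt_of_le_of_ne (hST _) fun heq => ?_
  obtain ⟨t, ht, ht'⟩ := SetLike.exists_of_lt hlt
  apply ht'
  have h1 : (xp W t l : W.H (((pw X m).prod Z).prod X)) ∈ T.C (((pw X m).prod Z).prod X) :=
    xp_mem_C T ht (hST _ hl)
  rw [← heq] at h1
  have h3 := S.push (fst ((pw X m).prod Z) X) h1
  rwa [push_fst _ _ (S.even hl), hl1, one_smul] at h3

/-- **The relative gap.** If all the classes of `T` on the powers of `X` belong to `S`, but not all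
those on the products of the powers of `X` with `Z`, then asymptotically at least the fraction
`1 / b(Z)` of the classes of `T` on `X^n × Z` does not belong to `S`. -/
theorem rel_gap (hST : ∀ X, S.C X ≤ T.C X) (hT : ∀ V, Nondeg T V) (h1X : (1 : W.H X) ≠ 0)
    (heq : ∀ n, S.C (pw X n) = T.C (pw X n)) {m : ℕ}
    (hm : S.C ((pw X m).prod Z) ≠ T.C ((pw X m).prod Z)) {ε : ℝ} (hε : 0 < ε) :
    ∃ n₀ : ℕ, ∀ n ≥ n₀, (finrank W.K (S.C ((pw X n).prod Z)) : ℝ) ≤
      (1 - 1 / finrank W.K (W.H Z) + ε) * finrank W.K (T.C ((pw X n).prod Z)) := by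
  set b := finrank W.K (W.H X) with hb
  set bZ := finrank W.K (W.H Z) with hbZ
  have hX : 0 < b := by
    have : Nontrivial (W.H X) := ⟨⟨1, 0, h1X⟩⟩
    exact Module.finrank_pos
  -- a class of degree one
  obtain ⟨l, hl, hl1⟩ : ∃ l ∈ S.C X, W.tr X l = 1 := by
    obtain ⟨l', hl', hl'0⟩ : ∃ l' ∈ S.C X, W.tr X l' ≠ 0 := by
      by_contra hcon
      push Not at hcon
      apply h1X
      apply hT X 1 (T.one X)
      intro y hy
      rw [one_mul]
      have h2 : S.C X = T.C X := heq 0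
      rw [← h2] at hy
      exact hcon y hy
    exact ⟨(W.tr X l')⁻¹ • l', Submodule.smul_mem _ _ hl', by
      rw [map_smul, smul_eq_mul, inv_mul_cancel₀ hl'0]⟩
  have hpos : ∀ n, 0 < S.al X n := by
    intro n
    obtain ⟨m, hm, hm1⟩ := S.exists_lam hl hl1 n
    refine S.a_pos (xp_mem_C S hm hm) ?_
    rw [tr_xp, hm1, mul_one]
  have haT : ∀ V : 𝒱.Obj, T.a V = finrank W.K (T.C V) := fun V => a_eq_finrank (hT V)
  -- the ratios tend to the square of the Betti number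
  have hB : ∀ c : ℝ, 0 ≤ c → c < (b : ℝ) ^ 2 → ∃ l₀, ∀ l ≥ l₀, c * S.al X l ≤ S.al X (l + 1) := by
    rcases ratio_dichotomy hpos (S.al_convex X) ((b : ℝ) ^ 2) with ⟨c, hc, hcB, h⟩ | hB
    · exfalso
      obtain ⟨n₀, hn₀⟩ := small_of (T := T) hc hcB h hX (ε := 1 / 2) (by positivity)
      have h2 := hn₀ n₀ le_rfl
      rw [a_eq_of (heq n₀), haT] at h2
      obtain ⟨m, hm, hm1⟩ := T.exists_lam (hST _ hl) hl1 n₀
      have h3 := T.a_pos hm hm1
      rw [haT] at h3
      have h4 : (0 : ℝ) < finrank W.K (T.C (pw X n₀)) := by exact_mod_cast h3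
      linarith
    · exact hB
  have hal : ∀ l, T.al X l = S.al X l := by
    intro l
    exact (a_eq_of (C_eq_iso hST (pwAdd X l l) (heq _))).symm
  -- the gap for every parity
  have hne : finrank W.K (S.C ((pw X m).prod Z)) < finrank W.K (T.C ((pw X m).prod Z)) :=
    Submodule.finrank_lt_finrank_of_lt (lt_of_le_of_ne (hST _) hm)
  have hbZ0 : 0 < bZ := by
    rw [Nat.pos_iff_ne_zero]
    intro h0
    have h1 : finrank W.K (W.H ((pw X m).prod Z)) = 0 := by
      rw [Y133.Half.finrank_prod, ← hbZ, h0, mul_zero]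
    have h2 : finrank W.K (T.C ((pw X m).prod Z)) ≤ finrank W.K (W.H ((pw X m).prod Z)) :=
      Submodule.finrank_le _
    omega
  have hbZ1 : (1 : ℝ) ≤ bZ := by exact_mod_cast hbZ0
  have key : ∀ p : ℕ, ∃ n₀ : ℕ, ∀ n ≥ n₀, n % 2 = p % 2 →
      (finrank W.K (S.C ((pw X n).prod Z)) : ℝ) ≤
        (1 - 1 / bZ + ε) * finrank W.K (T.C ((pw X n).prod Z)) := by
    intro p
    obtain ⟨m', hm'p, hlt⟩ : ∃ m', m' % 2 = p % 2 ∧
        finrank W.K (S.C ((pw X m').prod Z)) < finrank W.K (T.C ((pw X m').prod Z)) := by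
      by_cases h : m % 2 = p % 2
      · exact ⟨m, h, hne⟩
      · exact ⟨m + 1, by omega, lt_succ_rel hST hl hl1 hne⟩
    have hb1 : (1 : ℝ) ≤ b := by exact_mod_cast hX
    set m₀ := m' % 2 with hm₀
    obtain ⟨j, hj⟩ : ∃ j, m' + m₀ + 2 = 2 * j := ⟨(m' + m₀ + 2) / 2, by omega⟩
    have hB2 : (0 : ℝ) < (b : ℝ) ^ 2 := by positivity
    obtain ⟨c, hc0, hcB, hc⟩ := exists_close hB2 j hε
    obtain ⟨l₀, hl₀⟩ := hB c hc0 hcB
    refine ⟨2 * l₀ + m₀ + 2, fun n hn hpar => ?_⟩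
    obtain ⟨l', hl'⟩ : ∃ l', n = m₀ + (l' + l' + 1) + 1 := ⟨(n - m₀ - 2) / 2, by omega⟩
    have hl'0 : l' ≥ l₀ := by omega
    set Y := pw X l' with hY
    set P := pw X m' with hP
    set P₀ := pw X m₀ with hP₀
    let φ : P₀.prod (Y.prod Y) ≅ pw X n :=
      prodCongr (Iso.refl _) (pwAdd X l' l') ≪≫ pwAdd X m₀ (l' + l' + 1) ≪≫
        eqToIso (congrArg (pw X) hl'.symm)
    let ψ : (P₀.prod (Y.prod Y)).prod Z ≅ (pw X n).prod Z := prodCongr φ (Iso.refl _)
    obtain ⟨g, hg, hgg, hg0, hs⟩ := rel_key hST hlt (P₀.prod (Y.prod Y))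
    rw [S.finrank_C_iso ψ, T.finrank_C_iso ψ] at hs
    have hdP : finrank W.K (W.H P) = b ^ (m' + 1) := finrank_pw _ _
    have hdP₀ : finrank W.K (W.H P₀) = b ^ (m₀ + 1) := finrank_pw _ _
    have halY : S.a (Y.prod Y) = S.al X l' := rfl
    have haP : S.a ((P.prod P₀).prod (Y.prod Y)) = S.al X (l' + j) := by
      rw [S.a_iso (prodCongr (pwAdd X m' m₀) (Iso.refl _))]
      exact S.a_pw X (by omega)
    have hpow := ratio_pow hc0 hl₀ j l' hl'0
    have hr : ((b : ℝ) ^ (m₀ + 1) - ε) * S.al X l' ≤ S.r P g (P₀.prod (Y.prod Y)) := by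
      have h4 := S.r_lower (P₀ := P₀) hg hgg hg0 Y
      rw [haP, hdP, hdP₀, halY] at h4
      have h5 : (S.al X (l' + j) : ℝ) + (b : ℝ) ^ (m₀ + 1) * S.al X l' ≤
          S.r P g (P₀.prod (Y.prod Y)) + (b : ℝ) ^ (m' + 1) * (b : ℝ) ^ (m₀ + 1) *
            S.al X l' := by exact_mod_cast h4
      have h6 : (b : ℝ) ^ (m' + 1) * (b : ℝ) ^ (m₀ + 1) = ((b : ℝ) ^ 2) ^ j := by
        rw [← pow_add, ← pow_mul]
        congr 1
        omega
      rw [h6] at h5
      have h7 : (0 : ℝ) ≤ S.al X l' := Nat.cast_nonneg _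
      nlinarith [mul_le_mul_of_nonneg_right hc.le h7]
    -- the upper bound
    have hup : finrank W.K (T.C ((pw X n).prod Z)) ≤ (bZ * b ^ (m₀ + 1)) * S.al X l' := by
      let χ : (Z.prod P₀).prod (Y.prod Y) ≅ (pw X n).prod Z :=
        (θ₃ Z P₀ (Y.prod Y)) ≪≫ prodComm Z (P₀.prod (Y.prod Y)) ≪≫ ψ
      rw [← T.finrank_C_iso χ, ← haT]
      refine (T.a_le _ _).trans (le_of_eq ?_)
      rw [Y133.Half.finrank_prod, hdP₀, ← hal l']
      rfl
    have h8 : (finrank W.K (S.C ((pw X n).prod Z)) : ℝ) + S.r P g (P₀.prod (Y.prod Y)) ≤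
        finrank W.K (T.C ((pw X n).prod Z)) := by exact_mod_cast hs
    have h9 : (finrank W.K (T.C ((pw X n).prod Z)) : ℝ) ≤
        (bZ * (b : ℝ) ^ (m₀ + 1)) * S.al X l' := by exact_mod_cast hup
    set t : ℝ := (finrank W.K (T.C ((pw X n).prod Z)) : ℝ) with ht
    set A : ℝ := (S.al X l' : ℝ) with hA
    have hA0 : 0 ≤ A := Nat.cast_nonneg _
    have hbb : (1 : ℝ) ≤ (b : ℝ) ^ (m₀ + 1) := one_le_pow₀ hb1
    -- `(1 / bZ - ε) t ≤ (b^ - ε) A`
    have h10 : (1 / (bZ : ℝ) - ε) * t ≤ ((b : ℝ) ^ (m₀ + 1) - ε) * A := by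
      have hbZ' : (0 : ℝ) < bZ := by positivity
      rcases le_or_gt (1 / (bZ : ℝ) - ε) 0 with h | h
      · rcases le_or_gt ((b : ℝ) ^ (m₀ + 1) - ε) 0 with h' | h'
        · -- then `ε ≥ 1`, both sides are nonpositive
          have h11 : ε ≥ 1 := by linarith
          have h12 : 0 ≤ t := Nat.cast_nonneg _
          -- `t ≥ r ≥ 0` gives only `t ≥ 0`; we use the trivial bound of `A` by `t`
          have h13 : A ≤ t := by
            have h14 : finrank W.K (T.C (Y.prod Y)) ≤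
                finrank W.K (T.C ((Z.prod P₀).prod (Y.prod Y))) := by
              apply T.finrank_C_le (snd (Z.prod P₀) (Y.prod Y))
              intro x y hxy
              have h1ZP : (1 : W.H (Z.prod P₀)) ≠ 0 := by
                have : Nontrivial (W.H (Z.prod P₀)) := by
                  apply Module.nontrivial_of_finrank_pos (R := W.K)
                  rw [Y133.Half.finrank_prod, hdP₀]
                  exact Nat.mul_pos hbZ0 (Nat.pow_pos hX)
                exact one_ne_zero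
              have h3 : xp W (1 : W.H (Z.prod P₀)) (x - y) = 0 := by
                rw [xp, map_one, one_mul, map_sub, hxy, sub_self]
              exact sub_eq_zero.1 (xp_eq_zero_left h1ZP h3)
            have h15 : S.al X l' = finrank W.K (T.C (Y.prod Y)) := by
              rw [← hal l', ← haT]; rfl
            let χ : (Z.prod P₀).prod (Y.prod Y) ≅ (pw X n).prod Z :=
              (θ₃ Z P₀ (Y.prod Y)) ≪≫ prodComm Z (P₀.prod (Y.prod Y)) ≪≫ ψ
            rw [T.finrank_C_iso χ, ← h15] at h14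
            rw [hA, ht]
            exact_mod_cast h14
          have h16 : 1 / (bZ : ℝ) ≤ 1 := by
            rw [div_le_one hbZ']; exact hbZ1
          nlinarith
        · exact (mul_nonpos_of_nonpos_of_nonneg h (Nat.cast_nonneg _)).trans
            (mul_nonneg h'.le hA0)
      · calc (1 / (bZ : ℝ) - ε) * t ≤ (1 / (bZ : ℝ) - ε) * ((bZ * (b : ℝ) ^ (m₀ + 1)) * A) :=
              mul_le_mul_of_nonneg_left h9 h.le
          _ = ((b : ℝ) ^ (m₀ + 1) - ε * bZ * (b : ℝ) ^ (m₀ + 1)) * A := by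
              field_simp
          _ ≤ ((b : ℝ) ^ (m₀ + 1) - ε) * A := by
              apply mul_le_mul_of_nonneg_right _ hA0
              have : ε ≤ ε * bZ * (b : ℝ) ^ (m₀ + 1) := by
                have h11 : (1 : ℝ) ≤ bZ * (b : ℝ) ^ (m₀ + 1) := by nlinarith
                nlinarith
              linarith
    have h11 : (1 - 1 / (bZ : ℝ) + ε) * t = t - (1 / (bZ : ℝ) - ε) * t := by ring
    rw [h11]
    linarith
  obtain ⟨n₁, h₁⟩ := key 0
  obtain ⟨n₂, h₂⟩ := key 1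
  refine ⟨max n₁ n₂, fun n hn => ?_⟩
  rcases Nat.mod_two_eq_zero_or_one n with h | h
  · exact h₁ n ((le_max_left _ _).trans hn) h
  · exact h₂ n ((le_max_right _ _).trans hn) h

end Pool.Agent.U226.RG
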