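import Pool.Agent.U226.RG.Exact

/-!
# The exact share of the algebraic classes
-/

set_option linter.unusedSectionVars false
set_option autoImplicit false

open CategoryTheory AlgebraicGeometry Filter Topology

universe u v

namespace Pool.Agent.U226.RG

open Module
open Pool.Agent.H914 Pool.Agent.H914.VarClass Pool.Agent.H914.VarClass.Obj
  Pool.Agent.H914.WeilCohomology Pool.Agent.H281R3.HT Pool.Agent.Y133.Half.Sys
open Pool.Agent.Y133.Half (Sys pw algSys pwAdd prodCongr)

variable {k : Type u} [Field k] {𝒱 : VarClass k} {ops : CycleOps 𝒱}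
  {W : WeilCohomology.{u, v} ops} {X Y Z P Q N : 𝒱.Obj}

/-- The span of the images of the correspondences of `S` from the powers of `X` to `Z`. -/
noncomputable def img (S : Sys W) (X Z : 𝒱.Obj) : Submodule W.K (W.H Z) :=
  ⨆ n, ⨆ g : S.Op (pw X n) Z, LinearMap.range (g : W.H (pw X n) →ₗ[W.K] W.H Z)

lemma img_mono {S T : Sys W} (h : ∀ V, S.C V ≤ T.C V) : img S X Z ≤ img T X Z := by
  apply iSup_le
  intro n
  apply iSup_le
  rintro ⟨g, hg⟩
  have h1 : g ∈ T.Op (pw X n) Z := Submodule.map_mono (h _) hg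
  exact le_iSup_of_le n (le_iSup_of_le ⟨g, h1⟩ le_rfl)

lemma img_eq_span (S : Sys W) (X Z : 𝒱.Obj) : img S X Z = Submodule.span W.K
    {y | ∃ n, ∃ c ∈ S.C ((pw X n).prod Z), ∃ a : W.H (pw X n), y = W.corr c a} := by
  apply le_antisymm
  · apply iSup_le
    intro n
    apply iSup_le
    rintro ⟨g, hg⟩
    rintro _ ⟨a, rfl⟩
    obtain ⟨c, hc, rfl⟩ := mem_Op.1 hg
    exact Submodule.subset_span ⟨n, c, hc, a, rfl⟩
  · refine Submodule.span_le.2 ?_
    rintro _ ⟨n, c, hc, a, rfl⟩
    exact Submodule.mem_iSup_of_mem n (Submodule.mem_iSup_of_mem ⟨_, Op.corr hc⟩ ⟨a, rfl⟩)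

variable {T : Sys W} [Nontrivial (W.H X)] [Nontrivial (W.H Z)] (hT : ∀ V, Nondeg T V)
  (heq : ∀ n, algSpan W (pw X n) = T.C (pw X n)) (hST : ∀ V, algSpan W V ≤ T.C V)

include hT heq hST

lemma img_pos : 0 < finrank W.K (img T X Z) := by
  rw [Nat.pos_iff_ne_zero]
  intro h
  have h0 : img T X Z = ⊥ := Submodule.finrank_eq_zero.1 h
  have h1 : T.Op X Z = ⊥ := by
    rw [eq_bot_iff]
    intro g hg
    rw [Submodule.mem_bot]
    apply LinearMap.ext
    intro a
    have h2 : g a ∈ img T X Z :=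
      Submodule.mem_iSup_of_mem 0 (Submodule.mem_iSup_of_mem ⟨g, hg⟩ ⟨a, rfl⟩)
    rw [h0, Submodule.mem_bot] at h2
    exact h2
  have h2 := finrank_Op T X Z
  rw [h1, finrank_bot] at h2
  have : Nontrivial (W.H (X.prod Z)) := nontrivial_prod
  have h3 := finrank_C_pos (Z := X.prod Z) T
  omega

omit [Nontrivial (W.H X)] [Nontrivial (W.H Z)] in
lemma stable_alg (m n : ℕ) (u : W.H (pw X m) →ₗ[W.K] W.H (pw X n))
    (hu : u ∈ T.Op (pw X m) (pw X n)) (g : W.H (pw X n) →ₗ[W.K] W.H Z)
    (hg : g ∈ (algSys W).Op (pw X n) Z) : g ∘ₗ u ∈ (algSys W).Op (pw X m) Z := by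
  obtain ⟨c, hc, rfl⟩ := mem_Op.1 hu
  have h1 : (algSys W).C ((pw X m).prod (pw X n)) = T.C ((pw X m).prod (pw X n)) :=
    C_eq_iso (S := algSys W) hST (pwAdd X m n) (heq _)
  rw [← h1] at hc
  exact Op.comp hg (Op.corr hc)

/-- **The exact share.** -/
theorem exact_share :
    Tendsto (fun n => (finrank W.K (algSpan W ((pw X n).prod Z)) : ℝ) /
      finrank W.K (T.C ((pw X n).prod Z))) atTop
      (𝓝 ((finrank W.K (img (algSys W) X Z) : ℝ) / finrank W.K (img T X Z))) ∧
    (img (algSys W) X Z = img T X Z ↔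
      ∀ n, algSpan W ((pw X n).prod Z) = T.C ((pw X n).prod Z)) := by
  have hle : ∀ A B : 𝒱.Obj, (algSys W).Op A B ≤ T.Op A B := fun A B => Submodule.map_mono (hST _)
  have hT1 := exact_index hT heq hST Z (fun n => T.Op (pw X n) Z) (fun n => le_rfl)
    (fun m n u hu g hg => Op.comp hg hu)
  have hS1 := exact_index hT heq hST Z (fun n => (algSys W).Op (pw X n) Z) (fun n => hle _ _)
    (stable_alg hT heq hST)
  have hpos : (0 : ℝ) < finrank W.K (img T X Z) := by exact_mod_cast img_pos hT heq hST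
  constructor
  · have h1 := hS1.div hT1 hpos.ne'
    refine h1.congr fun n => ?_
    have h2 : (finrank W.K (T.C (pw X n)) : ℝ) ≠ 0 := by
      have := nontrivial_pw (W := W) (X := X) n
      have h3 := finrank_C_pos (Z := pw X n) T
      exact_mod_cast h3.ne'
    change (finrank W.K ((algSys W).Op (pw X n) Z) : ℝ) / finrank W.K (T.C (pw X n)) /
      ((finrank W.K (T.Op (pw X n) Z) : ℝ) / finrank W.K (T.C (pw X n))) = _
    rw [div_div_div_cancel_right₀ h2, finrank_Op, finrank_Op]
    rfl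
  · constructor
    · intro h n
      obtain ⟨f, hf, hff, hfM, hid, hV, -⟩ := exists_max hT heq hST Z
        (fun n => (algSys W).Op (pw X n) Z) (fun n => hle _ _) (stable_alg hT heq hST)
      have h1 : LinearMap.range f = img T X Z := hV.trans h
      have h2 : T.Op (pw X n) Z ≤ (algSys W).Op (pw X n) Z := by
        intro g hg
        have h3 : f ∘ₗ g = g := by
          apply LinearMap.ext
          intro a
          have h4 : g a ∈ img T X Z :=
            Submodule.mem_iSup_of_mem n (Submodule.mem_iSup_of_mem ⟨g, hg⟩ ⟨a, rfl⟩)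
          rw [← h1] at h4
          obtain ⟨y, hy⟩ := h4
          rw [LinearMap.comp_apply, ← hy]
          exact congrArg (fun F => F y) hff
        rw [← h3]
        exact hfM n g hg
      have h5 : finrank W.K ((algSys W).Op (pw X n) Z) = finrank W.K (T.Op (pw X n) Z) := by
        rw [le_antisymm (hle _ _) h2]
      rw [finrank_Op, finrank_Op] at h5
      exact Submodule.eq_of_le_of_finrank_eq (hST _) h5
    · intro h
      have h1 : ∀ n, (algSys W).Op (pw X n) Z = T.Op (pw X n) Z := by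
        intro n
        have h2 : (algSys W).C ((pw X n).prod Z) = T.C ((pw X n).prod Z) := h n
        rw [Sys.Op, Sys.Op, h2]
      apply le_antisymm (img_mono hST)
      apply iSup_le
      intro n
      apply iSup_le
      rintro ⟨g, hg⟩
      rw [← h1 n] at hg
      exact le_iSup_of_le n (le_iSup_of_le ⟨g, hg⟩ le_rfl)

end Pool.Agent.U226.RG
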