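import Pool.Agent.Y133.Half.Key

/-!
# Steps of chains of spaces of linear maps
-/

set_option linter.unusedSectionVars false
set_option autoImplicit false

namespace Pool.Agent.U226.RG

open Module Polynomial Pool.Agent.Y133.Half

variable {ι K : Type*} [Fintype ι] [DecidableEq ι] [Field K] {V : ι → Type*}
  [∀ i, AddCommGroup (V i)] [∀ i, Module K (V i)] [∀ i, FiniteDimensional K (V i)]
  (C : Cat K V)

/-- One step, for spaces of linear maps with values in the `V i`. -/
theorem step_gen {U : Type*} [AddCommGroup U] [Module K U] [FiniteDimensional K U] (i j : ι)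
    {M' M : Submodule K (U →ₗ[K] V i)} {N' N : Submodule K (U →ₗ[K] V j)}
    (hM' : ∀ a ∈ C.S i i, ∀ m ∈ M', a ∘ₗ m ∈ M') (hM : ∀ a ∈ C.S i i, ∀ m ∈ M, a ∘ₗ m ∈ M)
    (hN : ∀ v ∈ C.S j i, ∀ m ∈ M, v ∘ₗ m ∈ N) (hN' : ∀ u ∈ C.S i j, ∀ n ∈ N', u ∘ₗ n ∈ M')
    (hlt : M' < M) (hle : N' ≤ N) : ∃ g ∈ C.S i i, g ∘ₗ g = g ∧ g ≠ 0 ∧
      finrank K N' + rk (C.B i j g LinearMap.id) ≤ finrank K N := by
  classical
  -- an idempotent of minimal rank which is not zero on `M / M'`
  let Q : ℕ → Prop := fun n => ∃ g ∈ C.S i i, g ∘ₗ g = g ∧ (∃ m ∈ M, g ∘ₗ m ∉ M') ∧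
    finrank K (LinearMap.range g) = n
  have hQ : ∃ n, Q n := by
    obtain ⟨m, hm, hm'⟩ := SetLike.exists_of_lt hlt
    exact ⟨_, LinearMap.id, C.one i, rfl, ⟨m, hm, hm'⟩, rfl⟩
  obtain ⟨g, hg, hgg, ⟨m, hm, hgm⟩, hn⟩ := Nat.find_spec hQ
  have hmin : ∀ g' ∈ C.S i i, g' ∘ₗ g' = g' → finrank K (LinearMap.range g') <
      finrank K (LinearMap.range g) → ∀ m ∈ M, g' ∘ₗ m ∈ M' := by
    intro g' hg' hgg' hlt' m hm
    by_contra h
    rw [hn] at hlt'
    exact Nat.find_min hQ hlt' ⟨g', hg', hgg', ⟨m, hm, h⟩, rfl⟩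
  refine ⟨g, hg, hgg, ?_, ?_⟩
  · rintro rfl
    exact hgm (by rw [LinearMap.zero_comp]; exact Submodule.zero_mem _)
  set z : U →ₗ[K] V i := g ∘ₗ m with hz
  have hzM : z ∈ M := hM g hg m hm
  have hgz : g ∘ₗ z = z := by rw [hz, ← LinearMap.comp_assoc, hgg]
  -- the key property
  have key : ∀ x ∈ C.S i i, x ∘ₗ z ∈ M' → LinearMap.trace K (V i) (C.p i ∘ₗ g ∘ₗ x) = 0 := by
    intro x hx hxz
    set y : Module.End K (V i) := g ∘ₗ x ∘ₗ g with hy
    have hyS : y ∈ C.S i i := C.mul hg (C.mul hx hg)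
    have hgy : g ∘ₗ y = y := by rw [hy, ← LinearMap.comp_assoc, hgg]
    have hyg : y ∘ₗ g = y := by rw [hy, LinearMap.comp_assoc, LinearMap.comp_assoc, hgg]
    have hyz : y ∘ₗ z ∈ M' := by
      rw [hy, LinearMap.comp_assoc, LinearMap.comp_assoc, hgz]
      exact hM' g hg _ hxz
    obtain ⟨q, hq1, hq2⟩ := exists_fit y
    set u := aeval y q with hu
    have huS : u ∈ C.S i i := C.aeval_mem hyS q
    have hcomm : u * y = y * u := by
      have : Commute (aeval y q) (aeval y (X : K[X])) := by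
        rw [Commute, SemiconjBy, ← map_mul, ← map_mul, mul_comm]
      rw [aeval_X] at this
      exact this
    set π := u * y with hπ
    have hπS : π ∈ C.S i i := C.mul huS hyS
    have hgπ : g * π = π := by
      rw [hcomm, ← mul_assoc]
      exact congrArg (fun f : Module.End K (V i) => f * u) hgy
    have hπg : π * g = π := by
      rw [hπ, mul_assoc]
      exact congrArg (fun f : Module.End K (V i) => u * f) hyg
    have hπ0 : π = 0 := by
      by_contra hne
      have h1 : (g - π) ∘ₗ (g - π) = g - π := by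
        change (g - π) * (g - π) = g - π
        rw [sub_mul, mul_sub, mul_sub, hgπ, hπg, hq1, sub_self, sub_zero]
        change g ∘ₗ g - π = _
        rw [hgg]
      have h2 : (g - π) ∈ C.S i i := Submodule.sub_mem _ hg hπS
      have h3 : finrank K (LinearMap.range (g - π)) < finrank K (LinearMap.range g) := by
        have hle : LinearMap.range (g - π) ≤ LinearMap.range g := by
          rintro _ ⟨x, rfl⟩
          refine ⟨(g - π) x, ?_⟩
          have : g * (g - π) = g - π := by
            rw [mul_sub, hgπ]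
            change g ∘ₗ g - π = _
            rw [hgg]
          exact congrArg (fun f : Module.End K (V i) => f x) this
        apply Submodule.finrank_lt_finrank_of_lt
        refine lt_of_le_of_ne hle ?_
        intro heq
        apply hne
        apply LinearMap.ext
        intro x
        have h4 : π x ∈ LinearMap.range g := ⟨π x, congrArg (fun f : Module.End K (V i) => f x) hgπ⟩
        rw [← heq] at h4
        obtain ⟨w, hw⟩ := h4
        have h5 : π ((g - π) w) = 0 := by
          have : π * (g - π) = 0 := by rw [mul_sub, hπg, hq1, sub_self]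
          exact congrArg (fun f : Module.End K (V i) => f w) this
        rw [hw] at h5
        have h6 : π (π x) = π x := congrArg (fun f : Module.End K (V i) => f x) hq1
        rw [LinearMap.zero_apply, ← h6, h5]
      have h4 : (g - π) ∘ₗ z ∈ M' := hmin _ h2 h1 h3 z hzM
      have h5 : π ∘ₗ z ∈ M' := by
        have : π ∘ₗ z = u ∘ₗ (y ∘ₗ z) := by
          rw [hπ, ← LinearMap.comp_assoc]; rfl
        rw [this]
        exact hM' u huS _ hyz
      have h6 : z ∈ M' := by
        have : z = (g - π) ∘ₗ z + π ∘ₗ z := by rw [LinearMap.sub_comp, hgz, sub_add_cancel]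
        rw [this]
        exact Submodule.add_mem _ h4 h5
      exact hgm h6
    have hnil : IsNilpotent y := hq2 hπ0
    have h7 := C.tr_nil hyS hnil
    rw [hy] at h7
    have h8 : C.p i ∘ₗ g = g ∘ₗ C.p i := C.comm hg
    calc LinearMap.trace K (V i) (C.p i ∘ₗ g ∘ₗ x)
        = LinearMap.trace K (V i) (C.p i ∘ₗ (g ∘ₗ g) ∘ₗ x) := by rw [hgg]
      _ = LinearMap.trace K (V i) (g ∘ₗ (C.p i ∘ₗ g ∘ₗ x)) := by
          congr 1
          rw [LinearMap.comp_assoc, ← LinearMap.comp_assoc (g ∘ₗ x) g (C.p i), h8,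
            LinearMap.comp_assoc]
      _ = LinearMap.trace K (V i) ((C.p i ∘ₗ g ∘ₗ x) ∘ₗ g) := LinearMap.trace_comp_comm' _ _
      _ = 0 := by rw [← h7]; rfl
  -- the map `v ↦ v z`
  let Λ : C.S j i →ₗ[K] ((U →ₗ[K] V j) ⧸ N') :=
    { toFun := fun v => N'.mkQ ((v : V i →ₗ[K] V j) ∘ₗ z)
      map_add' := fun a b => by rw [Submodule.coe_add, LinearMap.add_comp, map_add]
      map_smul' := fun c a => by
        rw [Submodule.coe_smul, LinearMap.smul_comp, map_smul, RingHom.id_apply] }
  have hker : LinearMap.ker Λ ≤ LinearMap.ker (C.B i j g LinearMap.id).flip := by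
    intro v hv
    rw [LinearMap.mem_ker] at hv ⊢
    have h1 : (v : V i →ₗ[K] V j) ∘ₗ z ∈ N' := by
      have : N'.mkQ ((v : V i →ₗ[K] V j) ∘ₗ z) = 0 := hv
      rwa [Submodule.mkQ_apply, Submodule.Quotient.mk_eq_zero] at this
    apply LinearMap.ext
    intro u
    rw [LinearMap.flip_apply, Cat.B_apply, LinearMap.id_comp, LinearMap.zero_apply]
    refine key _ (C.mul u.2 v.2) ?_
    rw [LinearMap.comp_assoc]
    exact hN' _ u.2 _ h1
  have hr1 := LinearMap.finrank_range_add_finrank_ker Λ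
  have hr2 := LinearMap.finrank_range_add_finrank_ker (C.B i j g LinearMap.id).flip
  have hr3 := Submodule.finrank_mono hker
  have hr4 : rk (C.B i j g LinearMap.id) ≤ finrank K (LinearMap.range Λ) := by
    rw [← rk_flip, rk]
    omega
  have hr5 : LinearMap.range Λ ≤ N.map N'.mkQ := by
    rintro _ ⟨v, rfl⟩
    exact ⟨_, hN _ v.2 z hzM, rfl⟩
  have hr6 := Submodule.finrank_mono hr5
  have hr7 : finrank K (N.map N'.mkQ) + finrank K N' = finrank K N := by
    have h1 := LinearMap.finrank_range_add_finrank_ker (N'.mkQ.domRestrict N)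
    rw [LinearMap.range_domRestrict] at h1
    rw [← h1]
    congr 1
    have h2 : LinearMap.ker (N'.mkQ.domRestrict N) = N'.submoduleOf N := by
      ext x
      simp [Submodule.submoduleOf]
    rw [h2]
    exact (Submodule.submoduleOfEquivOfLe hle).finrank_eq.symm
  omega

end Pool.Agent.U226.RG
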